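import Pool.Agent.Gen.F5.X1D2C3Dm6.S000
import Pool.Agent.Gen.F5.X1D2C3Dm6.S001

set_option autoImplicit false
set_option maxRecDepth 100000

namespace Pool.Agent.Gen.F5.X1D2C3Dm6

open Pool.Agent.Helper72.F5

def n0 : Cl (O (nat_lit 6)) (R (nat_lit 143521))
    (p (nat_lit 0xb0004) (nat_lit 0) (p (nat_lit 0x20000c) (nat_lit 1) (p (nat_lit 0xd1) (nat_lit 1) (p (nat_lit 0x109) (nat_lit 1) (p (nat_lit 0x101) (nat_lit 0) (p (nat_lit 0x119) (nat_lit 0) (p (nat_lit 0xc9) (nat_lit 0) (p (nat_lit 0x89) (nat_lit 1) (p (nat_lit 0x41) (nat_lit 0) (p (nat_lit 0x10a898a09081a) (nat_lit 0) (p (nat_lit 0x8a090988879a) (nat_lit 0) (p (nat_lit 0x107888908071a) (nat_lit 0) (p (nat_lit 0x87080887869a) (nat_lit 0) (p (nat_lit 0x8000080000000088807060a) (nat_lit 0) (p (nat_lit 0x8000080000000060786858a) (nat_lit 0) (p (nat_lit 0x10687060502) (nat_lit 0) (p (nat_lit 0x8606858482) (nat_lit 0) (p (nat_lit 0x160004)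 (nat_lit 0) (p (nat_lit 0x68612) (nat_lit 0) (p (nat_lit 0x50592) (nat_lit 0) (p (nat_lit 0x38512) (nat_lit 0) (p (nat_lit 0x50392) (nat_lit 0) (p (nat_lit 0x38312) (nat_lit 0) (p (nat_lit 0x20292) (nat_lit 0) (p (nat_lit 0x38112) (nat_lit 0) (p (nat_lit 0x20092) (nat_lit 0) (p (nat_lit 0x8012) (nat_lit 0) pn))))))))))))))))))))))))))) :=
  Cl.node (nat_lit 0x200014) (nat_lit 2) (by decide +kernel) (ClAll.succ (ClAll.succ ClAll.zero s23) s24)

def n1 : Cl (O (nat_lit 6)) (R (nat_lit 143521))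
    (p (nat_lit 0x20000c) (nat_lit 1) (p (nat_lit 0xd1) (nat_lit 1) (p (nat_lit 0x109) (nat_lit 1) (p (nat_lit 0x101) (nat_lit 0) (p (nat_lit 0x119) (nat_lit 0) (p (nat_lit 0xc9) (nat_lit 0) (p (nat_lit 0x89) (nat_lit 1) (p (nat_lit 0x41) (nat_lit 0) (p (nat_lit 0x10a898a09081a) (nat_lit 0) (p (nat_lit 0x8a090988879a) (nat_lit 0) (p (nat_lit 0x107888908071a) (nat_lit 0) (p (nat_lit 0x87080887869a) (nat_lit 0) (p (nat_lit 0x8000080000000088807060a) (nat_lit 0) (p (nat_lit 0x8000080000000060786858a) (nat_lit 0) (p (nat_lit 0x10687060502) (nat_lit 0) (p (nat_lit 0x8606858482) (nat_lit 0) (p (nat_lit 0x160004) (nat_lit 0) (p (nat_lit 0x68612) (nat_lit 0) (p (nat_lit 0x50592) (nat_lit 0) (p (nat_lit 0x38512) (nat_lit 0) (p (nat_lit 0x50392) (nat_lit 0) (p (nat_lit 0x38312) (nat_lit 0) (p (nat_lit 0x20292) (nat_lit 0) (p (nat_lit 0x38112) (nat_lit 0) (p (nat_lit 0x20092) (nat_lit 0) (p (nat_lit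 0x8012) (nat_lit 0) pn)))))))))))))))))))))))))) :=
  Cl.node (nat_lit 0xb0004) (nat_lit 2) (by decide +kernel) (ClAll.succ (ClAll.succ ClAll.zero n0) s25)

def n2 : Cl (O (nat_lit 6)) (R (nat_lit 143521))
    (p (nat_lit 0xc9) (nat_lit 1) (p (nat_lit 0x81) (nat_lit 0) (p (nat_lit 0x101) (nat_lit 1) (p (nat_lit 0x119) (nat_lit 0) (p (nat_lit 0xd1) (nat_lit 0) (p (nat_lit 0x89) (nat_lit 0) (p (nat_lit 0x41) (nat_lit 0) (p (nat_lit 0x10a898a09081a) (nat_lit 0) (p (nat_lit 0x8a090988879a) (nat_lit 0) (p (nat_lit 0x107888908071a) (nat_lit 0) (p (nat_lit 0x87080887869a) (nat_lit 0) (p (nat_lit 0x8000080000000088807060a) (nat_lit 0) (p (nat_lit 0x8000080000000060786858a) (nat_lit 0) (p (nat_lit 0x10687060502) (nat_lit 0) (p (nat_lit 0x8606858482) (nat_lit 0) (p (nat_lit 0x160004) (nat_lit 0) (p (nat_lit 0x68612) (nat_lit 0) (p (nat_lit 0x50592) (nat_lit 0) (p (nat_lit 0x38512) (nat_lit 0) (p (nat_lit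 0x50392) (nat_lit 0) (p (nat_lit 0x38312) (nat_lit 0) (p (nat_lit 0x20292) (nat_lit 0) (p (nat_lit 0x38112) (nat_lit 0) (p (nat_lit 0x20092) (nat_lit 0) (p (nat_lit 0x8012) (nat_lit 0) pn))))))))))))))))))))))))) :=
  Cl.node (nat_lit 0x20000c) (nat_lit 2) (by decide +kernel) (ClAll.succ (ClAll.succ ClAll.zero s4) s5)

def n3 : Cl (O (nat_lit 6)) (R (nat_lit 143521))
    (p (nat_lit 0xc1) (nat_lit 0) (p (nat_lit 0x81) (nat_lit 1) (p (nat_lit 0x101) (nat_lit 1) (p (nat_lit 0x119) (nat_lit 0) (p (nat_lit 0xd1) (nat_lit 0) (p (nat_lit 0x89) (nat_lit 0) (p (nat_lit 0x41) (nat_lit 0) (p (nat_lit 0x10a898a09081a) (nat_lit 0) (p (nat_lit 0x8a090988879a) (nat_lit 0) (p (nat_lit 0x107888908071a) (nat_lit 0) (p (nat_lit 0x87080887869a) (nat_lit 0) (p (nat_lit 0x8000080000000088807060a) (nat_lit 0) (p (nat_lit 0x8000080000000060786858a) (nat_lit 0) (p (nat_lit 0x10687060502) (nat_lit 0) (p (nat_lit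 0x8606858482) (nat_lit 0) (p (nat_lit 0x160004) (nat_lit 0) (p (nat_lit 0x68612) (nat_lit 0) (p (nat_lit 0x50592) (nat_lit 0) (p (nat_lit 0x38512) (nat_lit 0) (p (nat_lit 0x50392) (nat_lit 0) (p (nat_lit 0x38312) (nat_lit 0) (p (nat_lit 0x20292) (nat_lit 0) (p (nat_lit 0x38112) (nat_lit 0) (p (nat_lit 0x20092) (nat_lit 0) (p (nat_lit 0x8012) (nat_lit 0) pn))))))))))))))))))))))))) :=
  Cl.node (nat_lit 0xc9) (nat_lit 2) (by decide +kernel) (ClAll.succ (ClAll.succ ClAll.zero s6) s7)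

def n4 : Cl (O (nat_lit 6)) (R (nat_lit 143521))
    (p (nat_lit 0x101) (nat_lit 0) (p (nat_lit 0x81) (nat_lit 1) (p (nat_lit 0xc1) (nat_lit 1) (p (nat_lit 0x119) (nat_lit 1) (p (nat_lit 0xd1) (nat_lit 0) (p (nat_lit 0x89) (nat_lit 0) (p (nat_lit 0x41) (nat_lit 0) (p (nat_lit 0x10a898a09081a) (nat_lit 0) (p (nat_lit 0x8a090988879a) (nat_lit 0) (p (nat_lit 0x107888908071a) (nat_lit 0) (p (nat_lit 0x87080887869a) (nat_lit 0) (p (nat_lit 0x8000080000000088807060a) (nat_lit 0) (p (nat_lit 0x8000080000000060786858a) (nat_lit 0) (p (nat_lit 0x10687060502) (nat_lit 0) (p (nat_lit 0x8606858482) (nat_lit 0) (p (nat_lit 0x160004) (nat_lit 0) (p (nat_lit 0x68612) (nat_lit 0) (p (nat_lit 0x50592) (nat_lit 0) (p (nat_lit 0x38512) (nat_lit 0) (p (nat_lit 0x50392) (nat_lit 0) (p (nat_lit 0x38312) (nat_lit 0) (p (nat_lit 0x20292) (nat_lit 0) (p (nat_lit 0x38112) (nat_lit 0) (p (nat_lit 0x20092) (nat_lit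 0) (p (nat_lit 0x8012) (nat_lit 0) pn))))))))))))))))))))))))) :=
  Cl.node (nat_lit 0x109) (nat_lit 2) (by decide +kernel) (ClAll.succ (ClAll.succ ClAll.zero s11) s12)

def n5 : Cl (O (nat_lit 6)) (R (nat_lit 143521))
    (p (nat_lit 0xd1) (nat_lit 1) (p (nat_lit 0x109) (nat_lit 1) (p (nat_lit 0x101) (nat_lit 0) (p (nat_lit 0x119) (nat_lit 0) (p (nat_lit 0xc9) (nat_lit 0) (p (nat_lit 0x89) (nat_lit 1) (p (nat_lit 0x41) (nat_lit 0) (p (nat_lit 0x10a898a09081a) (nat_lit 0) (p (nat_lit 0x8a090988879a) (nat_lit 0) (p (nat_lit 0x107888908071a) (nat_lit 0) (p (nat_lit 0x87080887869a) (nat_lit 0) (p (nat_lit 0x8000080000000088807060a) (nat_lit 0) (p (nat_lit 0x8000080000000060786858a) (nat_lit 0) (p (nat_lit 0x10687060502) (nat_lit 0) (p (nat_lit 0x8606858482) (nat_lit 0) (p (nat_lit 0x160004) (nat_lit 0) (p (nat_lit 0x68612) (nat_lit 0) (p (nat_lit 0x50592) (nat_lit 0) (p (nat_lit 0x38512) (nat_lit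 0) (p (nat_lit 0x50392) (nat_lit 0) (p (nat_lit 0x38312) (nat_lit 0) (p (nat_lit 0x20292) (nat_lit 0) (p (nat_lit 0x38112) (nat_lit 0) (p (nat_lit 0x20092) (nat_lit 0) (p (nat_lit 0x8012) (nat_lit 0) pn))))))))))))))))))))))))) :=
  Cl.node (nat_lit 0x20000c) (nat_lit 2) (by decide +kernel) (ClAll.succ (ClAll.succ ClAll.zero s22) n1)

def n6 : Cl (O (nat_lit 6)) (R (nat_lit 143521))
    (p (nat_lit 0xd1) (nat_lit 1) (p (nat_lit 0xc1) (nat_lit 0) (p (nat_lit 0x101) (nat_lit 1) (p (nat_lit 0x119) (nat_lit 0) (p (nat_lit 0xc9) (nat_lit 0) (p (nat_lit 0x89) (nat_lit 1) (p (nat_lit 0x41) (nat_lit 0) (p (nat_lit 0x10a898a09081a) (nat_lit 0) (p (nat_lit 0x8a090988879a) (nat_lit 0) (p (nat_lit 0x107888908071a) (nat_lit 0) (p (nat_lit 0x87080887869a) (nat_lit 0) (p (nat_lit 0x8000080000000088807060a) (nat_lit 0) (p (nat_lit 0x8000080000000060786858a) (nat_lit 0) (p (nat_lit 0x10687060502) (nat_lit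 0) (p (nat_lit 0x8606858482) (nat_lit 0) (p (nat_lit 0x160004) (nat_lit 0) (p (nat_lit 0x68612) (nat_lit 0) (p (nat_lit 0x50592) (nat_lit 0) (p (nat_lit 0x38512) (nat_lit 0) (p (nat_lit 0x50392) (nat_lit 0) (p (nat_lit 0x38312) (nat_lit 0) (p (nat_lit 0x20292) (nat_lit 0) (p (nat_lit 0x38112) (nat_lit 0) (p (nat_lit 0x20092) (nat_lit 0) (p (nat_lit 0x8012) (nat_lit 0) pn))))))))))))))))))))))))) :=
  Cl.node (nat_lit 0x20000c) (nat_lit 2) (by decide +kernel) (ClAll.succ (ClAll.succ ClAll.zero s27) s28)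

def n7 : Cl (O (nat_lit 6)) (R (nat_lit 143521))
    (p (nat_lit 0x89) (nat_lit 1) (p (nat_lit 0x109) (nat_lit 1) (p (nat_lit 0x101) (nat_lit 0) (p (nat_lit 0x111) (nat_lit 0) (p (nat_lit 0xd1) (nat_lit 1) (p (nat_lit 0x81) (nat_lit 0) (p (nat_lit 0x41) (nat_lit 1) (p (nat_lit 0x10a898a09081a) (nat_lit 0) (p (nat_lit 0x8a090988879a) (nat_lit 0) (p (nat_lit 0x107888908071a) (nat_lit 0) (p (nat_lit 0x87080887869a) (nat_lit 0) (p (nat_lit 0x8000080000000088807060a) (nat_lit 0) (p (nat_lit 0x8000080000000060786858a) (nat_lit 0) (p (nat_lit 0x10687060502) (nat_lit 0) (p (nat_lit 0x8606858482) (nat_lit 0) (p (nat_lit 0x160004) (nat_lit 0) (p (nat_lit 0x68612) (nat_lit 0) (p (nat_lit 0x50592) (nat_lit 0) (p (nat_lit 0x38512) (nat_lit 0) (p (nat_lit 0x50392) (nat_lit 0) (p (nat_lit 0x38312) (nat_lit 0) (p (nat_lit 0x20292) (nat_lit 0) (p (nat_lit 0x38112) (nat_lit 0) (p (nat_lit 0x20092) (nat_lit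 0) (p (nat_lit 0x8012) (nat_lit 0) pn))))))))))))))))))))))))) :=
  Cl.node (nat_lit 0xc9) (nat_lit 2) (by decide +kernel) (ClAll.succ (ClAll.succ ClAll.zero s48) s49)

def n8 : Cl (O (nat_lit 6)) (R (nat_lit 143521))
    (p (nat_lit 0x109) (nat_lit 1) (p (nat_lit 0x101) (nat_lit 0) (p (nat_lit 0x119) (nat_lit 0) (p (nat_lit 0xd1) (nat_lit 0) (p (nat_lit 0x89) (nat_lit 0) (p (nat_lit 0x41) (nat_lit 0) (p (nat_lit 0x10a898a09081a) (nat_lit 0) (p (nat_lit 0x8a090988879a) (nat_lit 0) (p (nat_lit 0x107888908071a) (nat_lit 0) (p (nat_lit 0x87080887869a) (nat_lit 0) (p (nat_lit 0x8000080000000088807060a) (nat_lit 0) (p (nat_lit 0x8000080000000060786858a) (nat_lit 0) (p (nat_lit 0x10687060502) (nat_lit 0) (p (nat_lit 0x8606858482) (nat_lit 0) (p (nat_lit 0x160004) (nat_lit 0) (p (nat_lit 0x68612) (nat_lit 0) (p (nat_lit 0x50592) (nat_lit 0) (p (nat_lit 0x38512) (nat_lit 0) (p (nat_lit 0x50392)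 (nat_lit 0) (p (nat_lit 0x38312) (nat_lit 0) (p (nat_lit 0x20292) (nat_lit 0) (p (nat_lit 0x38112) (nat_lit 0) (p (nat_lit 0x20092) (nat_lit 0) (p (nat_lit 0x8012) (nat_lit 0) pn)))))))))))))))))))))))) :=
  Cl.node (nat_lit 0xc9) (nat_lit 2) (by decide +kernel) (ClAll.succ (ClAll.succ ClAll.zero s1) s2)

def n9 : Cl (O (nat_lit 6)) (R (nat_lit 143521))
    (p (nat_lit 0x81) (nat_lit 0) (p (nat_lit 0x101) (nat_lit 1) (p (nat_lit 0x119) (nat_lit 0) (p (nat_lit 0xd1) (nat_lit 0) (p (nat_lit 0x89) (nat_lit 0) (p (nat_lit 0x41) (nat_lit 0) (p (nat_lit 0x10a898a09081a) (nat_lit 0) (p (nat_lit 0x8a090988879a) (nat_lit 0) (p (nat_lit 0x107888908071a) (nat_lit 0) (p (nat_lit 0x87080887869a) (nat_lit 0) (p (nat_lit 0x8000080000000088807060a) (nat_lit 0) (p (nat_lit 0x8000080000000060786858a) (nat_lit 0) (p (nat_lit 0x10687060502) (nat_lit 0) (p (nat_lit 0x8606858482) (nat_lit 0) (p (nat_lit 0x160004)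 (nat_lit 0) (p (nat_lit 0x68612) (nat_lit 0) (p (nat_lit 0x50592) (nat_lit 0) (p (nat_lit 0x38512) (nat_lit 0) (p (nat_lit 0x50392) (nat_lit 0) (p (nat_lit 0x38312) (nat_lit 0) (p (nat_lit 0x20292) (nat_lit 0) (p (nat_lit 0x38112) (nat_lit 0) (p (nat_lit 0x20092) (nat_lit 0) (p (nat_lit 0x8012) (nat_lit 0) pn)))))))))))))))))))))))) :=
  Cl.node (nat_lit 0xc9) (nat_lit 2) (by decide +kernel) (ClAll.succ (ClAll.succ ClAll.zero s3) n2)

def n10 : Cl (O (nat_lit 6)) (R (nat_lit 143521))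
    (p (nat_lit 0x81) (nat_lit 1) (p (nat_lit 0x101) (nat_lit 1) (p (nat_lit 0x119) (nat_lit 0) (p (nat_lit 0xd1) (nat_lit 0) (p (nat_lit 0x89) (nat_lit 0) (p (nat_lit 0x41) (nat_lit 0) (p (nat_lit 0x10a898a09081a) (nat_lit 0) (p (nat_lit 0x8a090988879a) (nat_lit 0) (p (nat_lit 0x107888908071a) (nat_lit 0) (p (nat_lit 0x87080887869a) (nat_lit 0) (p (nat_lit 0x8000080000000088807060a) (nat_lit 0) (p (nat_lit 0x8000080000000060786858a) (nat_lit 0) (p (nat_lit 0x10687060502) (nat_lit 0) (p (nat_lit 0x8606858482) (nat_lit 0) (p (nat_lit 0x160004) (nat_lit 0) (p (nat_lit 0x68612) (nat_lit 0) (p (nat_lit 0x50592) (nat_lit 0) (p (nat_lit 0x38512) (nat_lit 0) (p (nat_lit 0x50392) (nat_lit 0) (p (nat_lit 0x38312) (nat_lit 0) (p (nat_lit 0x20292) (nat_lit 0) (p (nat_lit 0x38112) (nat_lit 0) (p (nat_lit 0x20092) (nat_lit 0) (p (nat_lit 0x8012) (nat_lit 0) pn)))))))))))))))))))))))) :=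
  Cl.node (nat_lit 0xc1) (nat_lit 2) (by decide +kernel) (ClAll.succ (ClAll.succ ClAll.zero n3) s8)

def n11 : Cl (O (nat_lit 6)) (R (nat_lit 143521))
    (p (nat_lit 0x81) (nat_lit 1) (p (nat_lit 0xc1) (nat_lit 1) (p (nat_lit 0x119) (nat_lit 1) (p (nat_lit 0xd1) (nat_lit 0) (p (nat_lit 0x89) (nat_lit 0) (p (nat_lit 0x41) (nat_lit 0) (p (nat_lit 0x10a898a09081a) (nat_lit 0) (p (nat_lit 0x8a090988879a) (nat_lit 0) (p (nat_lit 0x107888908071a) (nat_lit 0) (p (nat_lit 0x87080887869a) (nat_lit 0) (p (nat_lit 0x8000080000000088807060a) (nat_lit 0) (p (nat_lit 0x8000080000000060786858a) (nat_lit 0) (p (nat_lit 0x10687060502) (nat_lit 0) (p (nat_lit 0x8606858482) (nat_lit 0) (p (nat_lit 0x160004) (nat_lit 0) (p (nat_lit 0x68612) (nat_lit 0) (p (nat_lit 0x50592) (nat_lit 0) (p (nat_lit 0x38512) (nat_lit 0) (p (nat_lit 0x50392) (nat_lit 0) (p (nat_lit 0x38312) (nat_lit 0) (p (nat_lit 0x20292) (nat_lit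 0) (p (nat_lit 0x38112) (nat_lit 0) (p (nat_lit 0x20092) (nat_lit 0) (p (nat_lit 0x8012) (nat_lit 0) pn)))))))))))))))))))))))) :=
  Cl.node (nat_lit 0x101) (nat_lit 2) (by decide +kernel) (ClAll.succ (ClAll.succ ClAll.zero n4) s13)

def n12 : Cl (O (nat_lit 6)) (R (nat_lit 143521))
    (p (nat_lit 0x81) (nat_lit 1) (p (nat_lit 0x101) (nat_lit 1) (p (nat_lit 0x111) (nat_lit 0) (p (nat_lit 0xd1) (nat_lit 1) (p (nat_lit 0x89) (nat_lit 0) (p (nat_lit 0x41) (nat_lit 0) (p (nat_lit 0x10a898a09081a) (nat_lit 0) (p (nat_lit 0x8a090988879a) (nat_lit 0) (p (nat_lit 0x107888908071a) (nat_lit 0) (p (nat_lit 0x87080887869a) (nat_lit 0) (p (nat_lit 0x8000080000000088807060a) (nat_lit 0) (p (nat_lit 0x8000080000000060786858a) (nat_lit 0) (p (nat_lit 0x10687060502) (nat_lit 0) (p (nat_lit 0x8606858482) (nat_lit 0) (p (nat_lit 0x160004) (nat_lit 0) (p (nat_lit 0x68612) (nat_lit 0) (p (nat_lit 0x50592) (nat_lit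 0) (p (nat_lit 0x38512) (nat_lit 0) (p (nat_lit 0x50392) (nat_lit 0) (p (nat_lit 0x38312) (nat_lit 0) (p (nat_lit 0x20292) (nat_lit 0) (p (nat_lit 0x38112) (nat_lit 0) (p (nat_lit 0x20092) (nat_lit 0) (p (nat_lit 0x8012) (nat_lit 0) pn)))))))))))))))))))))))) :=
  Cl.node (nat_lit 0xc1) (nat_lit 2) (by decide +kernel) (ClAll.succ (ClAll.succ ClAll.zero s17) s18)

def n13 : Cl (O (nat_lit 6)) (R (nat_lit 143521))
    (p (nat_lit 0x109) (nat_lit 1) (p (nat_lit 0x101) (nat_lit 0) (p (nat_lit 0x119) (nat_lit 0) (p (nat_lit 0xc9) (nat_lit 0) (p (nat_lit 0x89) (nat_lit 1) (p (nat_lit 0x41) (nat_lit 0) (p (nat_lit 0x10a898a09081a) (nat_lit 0) (p (nat_lit 0x8a090988879a) (nat_lit 0) (p (nat_lit 0x107888908071a) (nat_lit 0) (p (nat_lit 0x87080887869a) (nat_lit 0) (p (nat_lit 0x8000080000000088807060a) (nat_lit 0) (p (nat_lit 0x8000080000000060786858a) (nat_lit 0) (p (nat_lit 0x10687060502) (nat_lit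 0) (p (nat_lit 0x8606858482) (nat_lit 0) (p (nat_lit 0x160004) (nat_lit 0) (p (nat_lit 0x68612) (nat_lit 0) (p (nat_lit 0x50592) (nat_lit 0) (p (nat_lit 0x38512) (nat_lit 0) (p (nat_lit 0x50392) (nat_lit 0) (p (nat_lit 0x38312) (nat_lit 0) (p (nat_lit 0x20292) (nat_lit 0) (p (nat_lit 0x38112) (nat_lit 0) (p (nat_lit 0x20092) (nat_lit 0) (p (nat_lit 0x8012) (nat_lit 0) pn)))))))))))))))))))))))) :=
  Cl.node (nat_lit 0xd1) (nat_lit 2) (by decide +kernel) (ClAll.succ (ClAll.succ ClAll.zero s21) n5)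

def n14 : Cl (O (nat_lit 6)) (R (nat_lit 143521))
    (p (nat_lit 0xc1) (nat_lit 0) (p (nat_lit 0x101) (nat_lit 1) (p (nat_lit 0x119) (nat_lit 0) (p (nat_lit 0xc9) (nat_lit 0) (p (nat_lit 0x89) (nat_lit 1) (p (nat_lit 0x41) (nat_lit 0) (p (nat_lit 0x10a898a09081a) (nat_lit 0) (p (nat_lit 0x8a090988879a) (nat_lit 0) (p (nat_lit 0x107888908071a) (nat_lit 0) (p (nat_lit 0x87080887869a) (nat_lit 0) (p (nat_lit 0x8000080000000088807060a) (nat_lit 0) (p (nat_lit 0x8000080000000060786858a) (nat_lit 0) (p (nat_lit 0x10687060502) (nat_lit 0) (p (nat_lit 0x8606858482) (nat_lit 0) (p (nat_lit 0x160004) (nat_lit 0) (p (nat_lit 0x68612) (nat_lit 0) (p (nat_lit 0x50592) (nat_lit 0) (p (nat_lit 0x38512) (nat_lit 0) (p (nat_lit 0x50392) (nat_lit 0) (p (nat_lit 0x38312) (nat_lit 0) (p (nat_lit 0x20292) (nat_lit 0) (p (nat_lit 0x38112) (nat_lit 0) (p (nat_lit 0x20092) (nat_lit 0) (p (nat_lit 0x8012) (nat_lit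 0) pn)))))))))))))))))))))))) :=
  Cl.node (nat_lit 0xd1) (nat_lit 2) (by decide +kernel) (ClAll.succ (ClAll.succ ClAll.zero s26) n6)

def n15 : Cl (O (nat_lit 6)) (R (nat_lit 143521))
    (p (nat_lit 0x101) (nat_lit 0) (p (nat_lit 0xc1) (nat_lit 1) (p (nat_lit 0x119) (nat_lit 1) (p (nat_lit 0xc9) (nat_lit 0) (p (nat_lit 0x89) (nat_lit 1) (p (nat_lit 0x41) (nat_lit 0) (p (nat_lit 0x10a898a09081a) (nat_lit 0) (p (nat_lit 0x8a090988879a) (nat_lit 0) (p (nat_lit 0x107888908071a) (nat_lit 0) (p (nat_lit 0x87080887869a) (nat_lit 0) (p (nat_lit 0x8000080000000088807060a) (nat_lit 0) (p (nat_lit 0x8000080000000060786858a) (nat_lit 0) (p (nat_lit 0x10687060502) (nat_lit 0) (p (nat_lit 0x8606858482) (nat_lit 0) (p (nat_lit 0x160004) (nat_lit 0) (p (nat_lit 0x68612) (nat_lit 0) (p (nat_lit 0x50592) (nat_lit 0) (p (nat_lit 0x38512) (nat_lit 0) (p (nat_lit 0x50392) (nat_lit 0) (p (nat_lit 0x38312) (nat_lit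 0) (p (nat_lit 0x20292) (nat_lit 0) (p (nat_lit 0x38112) (nat_lit 0) (p (nat_lit 0x20092) (nat_lit 0) (p (nat_lit 0x8012) (nat_lit 0) pn)))))))))))))))))))))))) :=
  Cl.node (nat_lit 0x111) (nat_lit 2) (by decide +kernel) (ClAll.succ (ClAll.succ ClAll.zero s31) s32)

def n16 : Cl (O (nat_lit 6)) (R (nat_lit 143521))
    (p (nat_lit 0x109) (nat_lit 1) (p (nat_lit 0x101) (nat_lit 0) (p (nat_lit 0x119) (nat_lit 0) (p (nat_lit 0xd1) (nat_lit 0) (p (nat_lit 0x81) (nat_lit 0) (p (nat_lit 0x41) (nat_lit 1) (p (nat_lit 0x10a898a09081a) (nat_lit 0) (p (nat_lit 0x8a090988879a) (nat_lit 0) (p (nat_lit 0x107888908071a) (nat_lit 0) (p (nat_lit 0x87080887869a) (nat_lit 0) (p (nat_lit 0x8000080000000088807060a) (nat_lit 0) (p (nat_lit 0x8000080000000060786858a) (nat_lit 0) (p (nat_lit 0x10687060502) (nat_lit 0) (p (nat_lit 0x8606858482) (nat_lit 0) (p (nat_lit 0x160004) (nat_lit 0) (p (nat_lit 0x68612)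 (nat_lit 0) (p (nat_lit 0x50592) (nat_lit 0) (p (nat_lit 0x38512) (nat_lit 0) (p (nat_lit 0x50392) (nat_lit 0) (p (nat_lit 0x38312) (nat_lit 0) (p (nat_lit 0x20292) (nat_lit 0) (p (nat_lit 0x38112) (nat_lit 0) (p (nat_lit 0x20092) (nat_lit 0) (p (nat_lit 0x8012) (nat_lit 0) pn)))))))))))))))))))))))) :=
  Cl.node (nat_lit 0x89) (nat_lit 2) (by decide +kernel) (ClAll.succ (ClAll.succ ClAll.zero s39) s40)

def n17 : Cl (O (nat_lit 6)) (R (nat_lit 143521))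
    (p (nat_lit 0x109) (nat_lit 1) (p (nat_lit 0x101) (nat_lit 0) (p (nat_lit 0x111) (nat_lit 0) (p (nat_lit 0xd1) (nat_lit 1) (p (nat_lit 0x81) (nat_lit 0) (p (nat_lit 0x41) (nat_lit 1) (p (nat_lit 0x10a898a09081a) (nat_lit 0) (p (nat_lit 0x8a090988879a) (nat_lit 0) (p (nat_lit 0x107888908071a) (nat_lit 0) (p (nat_lit 0x87080887869a) (nat_lit 0) (p (nat_lit 0x8000080000000088807060a) (nat_lit 0) (p (nat_lit 0x8000080000000060786858a) (nat_lit 0) (p (nat_lit 0x10687060502) (nat_lit 0) (p (nat_lit 0x8606858482) (nat_lit 0) (p (nat_lit 0x160004) (nat_lit 0) (p (nat_lit 0x68612) (nat_lit 0) (p (nat_lit 0x50592) (nat_lit 0) (p (nat_lit 0x38512) (nat_lit 0) (p (nat_lit 0x50392) (nat_lit 0) (p (nat_lit 0x38312) (nat_lit 0) (p (nat_lit 0x20292) (nat_lit 0) (p (nat_lit 0x38112) (nat_lit 0) (p (nat_lit 0x20092) (nat_lit 0) (p (nat_lit 0x8012) (nat_lit 0) pn)))))))))))))))))))))))) :=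
  Cl.node (nat_lit 0x89) (nat_lit 2) (by decide +kernel) (ClAll.succ (ClAll.succ ClAll.zero s47) n7)

def n18 : Cl (O (nat_lit 6)) (R (nat_lit 143521))
    (p (nat_lit 0x109) (nat_lit 1) (p (nat_lit 0x101) (nat_lit 0) (p (nat_lit 0x119) (nat_lit 0) (p (nat_lit 0xc1) (nat_lit 0) (p (nat_lit 0x81) (nat_lit 1) (p (nat_lit 0x41) (nat_lit 1) (p (nat_lit 0x10a898a09081a) (nat_lit 0) (p (nat_lit 0x8a090988879a) (nat_lit 0) (p (nat_lit 0x107888908071a) (nat_lit 0) (p (nat_lit 0x87080887869a) (nat_lit 0) (p (nat_lit 0x8000080000000088807060a) (nat_lit 0) (p (nat_lit 0x8000080000000060786858a) (nat_lit 0) (p (nat_lit 0x10687060502) (nat_lit 0) (p (nat_lit 0x8606858482) (nat_lit 0) (p (nat_lit 0x160004) (nat_lit 0) (p (nat_lit 0x68612) (nat_lit 0) (p (nat_lit 0x50592) (nat_lit 0) (p (nat_lit 0x38512) (nat_lit 0) (p (nat_lit 0x50392) (nat_lit 0) (p (nat_lit 0x38312) (nat_lit 0) (p (nat_lit 0x20292)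 (nat_lit 0) (p (nat_lit 0x38112) (nat_lit 0) (p (nat_lit 0x20092) (nat_lit 0) (p (nat_lit 0x8012) (nat_lit 0) pn)))))))))))))))))))))))) :=
  Cl.node (nat_lit 0xc9) (nat_lit 2) (by decide +kernel) (ClAll.succ (ClAll.succ ClAll.zero s53) s54)

def n19 : Cl (O (nat_lit 6)) (R (nat_lit 143521))
    (p (nat_lit 0x101) (nat_lit 0) (p (nat_lit 0x119) (nat_lit 0) (p (nat_lit 0xd1) (nat_lit 0) (p (nat_lit 0x89) (nat_lit 0) (p (nat_lit 0x41) (nat_lit 0) (p (nat_lit 0x10a898a09081a) (nat_lit 0) (p (nat_lit 0x8a090988879a) (nat_lit 0) (p (nat_lit 0x107888908071a) (nat_lit 0) (p (nat_lit 0x87080887869a) (nat_lit 0) (p (nat_lit 0x8000080000000088807060a) (nat_lit 0) (p (nat_lit 0x8000080000000060786858a) (nat_lit 0) (p (nat_lit 0x10687060502) (nat_lit 0) (p (nat_lit 0x8606858482) (nat_lit 0) (p (nat_lit 0x160004) (nat_lit 0) (p (nat_lit 0x68612) (nat_lit 0) (p (nat_lit 0x50592) (nat_lit 0) (p (nat_lit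 0x38512) (nat_lit 0) (p (nat_lit 0x50392) (nat_lit 0) (p (nat_lit 0x38312) (nat_lit 0) (p (nat_lit 0x20292) (nat_lit 0) (p (nat_lit 0x38112) (nat_lit 0) (p (nat_lit 0x20092) (nat_lit 0) (p (nat_lit 0x8012) (nat_lit 0) pn))))))))))))))))))))))) :=
  Cl.node (nat_lit 0x109) (nat_lit 2) (by decide +kernel) (ClAll.succ (ClAll.succ ClAll.zero s0) n8)

def n20 : Cl (O (nat_lit 6)) (R (nat_lit 143521))
    (p (nat_lit 0x101) (nat_lit 1) (p (nat_lit 0x119) (nat_lit 0) (p (nat_lit 0xd1) (nat_lit 0) (p (nat_lit 0x89) (nat_lit 0) (p (nat_lit 0x41) (nat_lit 0) (p (nat_lit 0x10a898a09081a) (nat_lit 0) (p (nat_lit 0x8a090988879a) (nat_lit 0) (p (nat_lit 0x107888908071a) (nat_lit 0) (p (nat_lit 0x87080887869a) (nat_lit 0) (p (nat_lit 0x8000080000000088807060a) (nat_lit 0) (p (nat_lit 0x8000080000000060786858a) (nat_lit 0) (p (nat_lit 0x10687060502) (nat_lit 0) (p (nat_lit 0x8606858482) (nat_lit 0) (p (nat_lit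 0x160004) (nat_lit 0) (p (nat_lit 0x68612) (nat_lit 0) (p (nat_lit 0x50592) (nat_lit 0) (p (nat_lit 0x38512) (nat_lit 0) (p (nat_lit 0x50392) (nat_lit 0) (p (nat_lit 0x38312) (nat_lit 0) (p (nat_lit 0x20292) (nat_lit 0) (p (nat_lit 0x38112) (nat_lit 0) (p (nat_lit 0x20092) (nat_lit 0) (p (nat_lit 0x8012) (nat_lit 0) pn))))))))))))))))))))))) :=
  Cl.node (nat_lit 0x81) (nat_lit 2) (by decide +kernel) (ClAll.succ (ClAll.succ ClAll.zero n9) n10)

def n21 : Cl (O (nat_lit 6)) (R (nat_lit 143521))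
    (p (nat_lit 0xc1) (nat_lit 1) (p (nat_lit 0x119) (nat_lit 1) (p (nat_lit 0xd1) (nat_lit 0) (p (nat_lit 0x89) (nat_lit 0) (p (nat_lit 0x41) (nat_lit 0) (p (nat_lit 0x10a898a09081a) (nat_lit 0) (p (nat_lit 0x8a090988879a) (nat_lit 0) (p (nat_lit 0x107888908071a) (nat_lit 0) (p (nat_lit 0x87080887869a) (nat_lit 0) (p (nat_lit 0x8000080000000088807060a) (nat_lit 0) (p (nat_lit 0x8000080000000060786858a) (nat_lit 0) (p (nat_lit 0x10687060502) (nat_lit 0) (p (nat_lit 0x8606858482) (nat_lit 0) (p (nat_lit 0x160004) (nat_lit 0) (p (nat_lit 0x68612) (nat_lit 0) (p (nat_lit 0x50592) (nat_lit 0) (p (nat_lit 0x38512) (nat_lit 0) (p (nat_lit 0x50392) (nat_lit 0) (p (nat_lit 0x38312) (nat_lit 0) (p (nat_lit 0x20292) (nat_lit 0) (p (nat_lit 0x38112) (nat_lit 0) (p (nat_lit 0x20092) (nat_lit 0) (p (nat_lit 0x8012) (nat_lit 0) pn))))))))))))))))))))))) :=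
  Cl.node (nat_lit 0x81) (nat_lit 2) (by decide +kernel) (ClAll.succ (ClAll.succ ClAll.zero s10) n11)

def n22 : Cl (O (nat_lit 6)) (R (nat_lit 143521))
    (p (nat_lit 0x101) (nat_lit 0) (p (nat_lit 0x111) (nat_lit 0) (p (nat_lit 0xd1) (nat_lit 1) (p (nat_lit 0x89) (nat_lit 0) (p (nat_lit 0x41) (nat_lit 0) (p (nat_lit 0x10a898a09081a) (nat_lit 0) (p (nat_lit 0x8a090988879a) (nat_lit 0) (p (nat_lit 0x107888908071a) (nat_lit 0) (p (nat_lit 0x87080887869a) (nat_lit 0) (p (nat_lit 0x8000080000000088807060a) (nat_lit 0) (p (nat_lit 0x8000080000000060786858a) (nat_lit 0) (p (nat_lit 0x10687060502) (nat_lit 0) (p (nat_lit 0x8606858482) (nat_lit 0) (p (nat_lit 0x160004) (nat_lit 0) (p (nat_lit 0x68612) (nat_lit 0) (p (nat_lit 0x50592) (nat_lit 0) (p (nat_lit 0x38512) (nat_lit 0) (p (nat_lit 0x50392) (nat_lit 0) (p (nat_lit 0x38312) (nat_lit 0) (p (nat_lit 0x20292) (nat_lit 0) (p (nat_lit 0x38112)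 (nat_lit 0) (p (nat_lit 0x20092) (nat_lit 0) (p (nat_lit 0x8012) (nat_lit 0) pn))))))))))))))))))))))) :=
  Cl.node (nat_lit 0x109) (nat_lit 2) (by decide +kernel) (ClAll.succ (ClAll.succ ClAll.zero s14) s15)

def n23 : Cl (O (nat_lit 6)) (R (nat_lit 143521))
    (p (nat_lit 0x101) (nat_lit 1) (p (nat_lit 0x111) (nat_lit 0) (p (nat_lit 0xd1) (nat_lit 1) (p (nat_lit 0x89) (nat_lit 0) (p (nat_lit 0x41) (nat_lit 0) (p (nat_lit 0x10a898a09081a) (nat_lit 0) (p (nat_lit 0x8a090988879a) (nat_lit 0) (p (nat_lit 0x107888908071a) (nat_lit 0) (p (nat_lit 0x87080887869a) (nat_lit 0) (p (nat_lit 0x8000080000000088807060a) (nat_lit 0) (p (nat_lit 0x8000080000000060786858a) (nat_lit 0) (p (nat_lit 0x10687060502) (nat_lit 0) (p (nat_lit 0x8606858482) (nat_lit 0) (p (nat_lit 0x160004) (nat_lit 0) (p (nat_lit 0x68612) (nat_lit 0) (p (nat_lit 0x50592) (nat_lit 0) (p (nat_lit 0x38512) (nat_lit 0) (p (nat_lit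 0x50392) (nat_lit 0) (p (nat_lit 0x38312) (nat_lit 0) (p (nat_lit 0x20292) (nat_lit 0) (p (nat_lit 0x38112) (nat_lit 0) (p (nat_lit 0x20092) (nat_lit 0) (p (nat_lit 0x8012) (nat_lit 0) pn))))))))))))))))))))))) :=
  Cl.node (nat_lit 0x81) (nat_lit 2) (by decide +kernel) (ClAll.succ (ClAll.succ ClAll.zero s16) n12)

def n24 : Cl (O (nat_lit 6)) (R (nat_lit 143521))
    (p (nat_lit 0x101) (nat_lit 0) (p (nat_lit 0x119) (nat_lit 0) (p (nat_lit 0xc9) (nat_lit 0) (p (nat_lit 0x89) (nat_lit 1) (p (nat_lit 0x41) (nat_lit 0) (p (nat_lit 0x10a898a09081a) (nat_lit 0) (p (nat_lit 0x8a090988879a) (nat_lit 0) (p (nat_lit 0x107888908071a) (nat_lit 0) (p (nat_lit 0x87080887869a) (nat_lit 0) (p (nat_lit 0x8000080000000088807060a) (nat_lit 0) (p (nat_lit 0x8000080000000060786858a) (nat_lit 0) (p (nat_lit 0x10687060502) (nat_lit 0) (p (nat_lit 0x8606858482) (nat_lit 0) (p (nat_lit 0x160004) (nat_lit 0) (p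 (nat_lit 0x68612) (nat_lit 0) (p (nat_lit 0x50592) (nat_lit 0) (p (nat_lit 0x38512) (nat_lit 0) (p (nat_lit 0x50392) (nat_lit 0) (p (nat_lit 0x38312) (nat_lit 0) (p (nat_lit 0x20292) (nat_lit 0) (p (nat_lit 0x38112) (nat_lit 0) (p (nat_lit 0x20092) (nat_lit 0) (p (nat_lit 0x8012) (nat_lit 0) pn))))))))))))))))))))))) :=
  Cl.node (nat_lit 0x109) (nat_lit 2) (by decide +kernel) (ClAll.succ (ClAll.succ ClAll.zero s20) n13)

def n25 : Cl (O (nat_lit 6)) (R (nat_lit 143521))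
    (p (nat_lit 0x101) (nat_lit 1) (p (nat_lit 0x119) (nat_lit 0) (p (nat_lit 0xc9) (nat_lit 0) (p (nat_lit 0x89) (nat_lit 1) (p (nat_lit 0x41) (nat_lit 0) (p (nat_lit 0x10a898a09081a) (nat_lit 0) (p (nat_lit 0x8a090988879a) (nat_lit 0) (p (nat_lit 0x107888908071a) (nat_lit 0) (p (nat_lit 0x87080887869a) (nat_lit 0) (p (nat_lit 0x8000080000000088807060a) (nat_lit 0) (p (nat_lit 0x8000080000000060786858a) (nat_lit 0) (p (nat_lit 0x10687060502) (nat_lit 0) (p (nat_lit 0x8606858482) (nat_lit 0) (p (nat_lit 0x160004) (nat_lit 0) (p (nat_lit 0x68612) (nat_lit 0) (p (nat_lit 0x50592) (nat_lit 0) (p (nat_lit 0x38512) (nat_lit 0) (p (nat_lit 0x50392) (nat_lit 0) (p (nat_lit 0x38312) (nat_lit 0) (p (nat_lit 0x20292) (nat_lit 0) (p (nat_lit 0x38112) (nat_lit 0) (p (nat_lit 0x20092) (nat_lit 0) (p (nat_lit 0x8012) (nat_lit 0) pn))))))))))))))))))))))) :=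
  Cl.node (nat_lit 0xc1) (nat_lit 2) (by decide +kernel) (ClAll.succ (ClAll.succ ClAll.zero n14) s29)

def n26 : Cl (O (nat_lit 6)) (R (nat_lit 143521))
    (p (nat_lit 0xc1) (nat_lit 1) (p (nat_lit 0x119) (nat_lit 1) (p (nat_lit 0xc9) (nat_lit 0) (p (nat_lit 0x89) (nat_lit 1) (p (nat_lit 0x41) (nat_lit 0) (p (nat_lit 0x10a898a09081a) (nat_lit 0) (p (nat_lit 0x8a090988879a) (nat_lit 0) (p (nat_lit 0x107888908071a) (nat_lit 0) (p (nat_lit 0x87080887869a) (nat_lit 0) (p (nat_lit 0x8000080000000088807060a) (nat_lit 0) (p (nat_lit 0x8000080000000060786858a) (nat_lit 0) (p (nat_lit 0x10687060502) (nat_lit 0) (p (nat_lit 0x8606858482) (nat_lit 0) (p (nat_lit 0x160004) (nat_lit 0) (p (nat_lit 0x68612) (nat_lit 0) (p (nat_lit 0x50592) (nat_lit 0) (p (nat_lit 0x38512) (nat_lit 0) (p (nat_lit 0x50392) (nat_lit 0) (p (nat_lit 0x38312) (nat_lit 0) (p (nat_lit 0x20292) (nat_lit 0) (p (nat_lit 0x38112)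 (nat_lit 0) (p (nat_lit 0x20092) (nat_lit 0) (p (nat_lit 0x8012) (nat_lit 0) pn))))))))))))))))))))))) :=
  Cl.node (nat_lit 0x101) (nat_lit 2) (by decide +kernel) (ClAll.succ (ClAll.succ ClAll.zero n15) s33)

def n27 : Cl (O (nat_lit 6)) (R (nat_lit 143521))
    (p (nat_lit 0x101) (nat_lit 0) (p (nat_lit 0x109) (nat_lit 0) (p (nat_lit 0xc9) (nat_lit 1) (p (nat_lit 0x89) (nat_lit 1) (p (nat_lit 0x41) (nat_lit 0) (p (nat_lit 0x10a898a09081a) (nat_lit 0) (p (nat_lit 0x8a090988879a) (nat_lit 0) (p (nat_lit 0x107888908071a) (nat_lit 0) (p (nat_lit 0x87080887869a) (nat_lit 0) (p (nat_lit 0x8000080000000088807060a) (nat_lit 0) (p (nat_lit 0x8000080000000060786858a) (nat_lit 0) (p (nat_lit 0x10687060502) (nat_lit 0) (p (nat_lit 0x8606858482) (nat_lit 0) (p (nat_lit 0x160004) (nat_lit 0) (p (nat_lit 0x68612) (nat_lit 0) (p (nat_lit 0x50592) (nat_lit 0) (p (nat_lit 0x38512) (nat_lit 0) (p (nat_lit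 0x50392) (nat_lit 0) (p (nat_lit 0x38312) (nat_lit 0) (p (nat_lit 0x20292) (nat_lit 0) (p (nat_lit 0x38112) (nat_lit 0) (p (nat_lit 0x20092) (nat_lit 0) (p (nat_lit 0x8012) (nat_lit 0) pn))))))))))))))))))))))) :=
  Cl.node (nat_lit 0x111) (nat_lit 2) (by decide +kernel) (ClAll.succ (ClAll.succ ClAll.zero s34) s35)

def n28 : Cl (O (nat_lit 6)) (R (nat_lit 143521))
    (p (nat_lit 0x101) (nat_lit 0) (p (nat_lit 0x119) (nat_lit 0) (p (nat_lit 0xd1) (nat_lit 0) (p (nat_lit 0x81) (nat_lit 0) (p (nat_lit 0x41) (nat_lit 1) (p (nat_lit 0x10a898a09081a) (nat_lit 0) (p (nat_lit 0x8a090988879a) (nat_lit 0) (p (nat_lit 0x107888908071a) (nat_lit 0) (p (nat_lit 0x87080887869a) (nat_lit 0) (p (nat_lit 0x8000080000000088807060a) (nat_lit 0) (p (nat_lit 0x8000080000000060786858a) (nat_lit 0) (p (nat_lit 0x10687060502) (nat_lit 0) (p (nat_lit 0x8606858482) (nat_lit 0) (p (nat_lit 0x160004) (nat_lit 0) (p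 (nat_lit 0x68612) (nat_lit 0) (p (nat_lit 0x50592) (nat_lit 0) (p (nat_lit 0x38512) (nat_lit 0) (p (nat_lit 0x50392) (nat_lit 0) (p (nat_lit 0x38312) (nat_lit 0) (p (nat_lit 0x20292) (nat_lit 0) (p (nat_lit 0x38112) (nat_lit 0) (p (nat_lit 0x20092) (nat_lit 0) (p (nat_lit 0x8012) (nat_lit 0) pn))))))))))))))))))))))) :=
  Cl.node (nat_lit 0x109) (nat_lit 2) (by decide +kernel) (ClAll.succ (ClAll.succ ClAll.zero s38) n16)

def n29 : Cl (O (nat_lit 6)) (R (nat_lit 143521))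
    (p (nat_lit 0x101) (nat_lit 1) (p (nat_lit 0x119) (nat_lit 0) (p (nat_lit 0xd1) (nat_lit 0) (p (nat_lit 0x81) (nat_lit 0) (p (nat_lit 0x41) (nat_lit 1) (p (nat_lit 0x10a898a09081a) (nat_lit 0) (p (nat_lit 0x8a090988879a) (nat_lit 0) (p (nat_lit 0x107888908071a) (nat_lit 0) (p (nat_lit 0x87080887869a) (nat_lit 0) (p (nat_lit 0x8000080000000088807060a) (nat_lit 0) (p (nat_lit 0x8000080000000060786858a) (nat_lit 0) (p (nat_lit 0x10687060502) (nat_lit 0) (p (nat_lit 0x8606858482) (nat_lit 0) (p (nat_lit 0x160004) (nat_lit 0) (p (nat_lit 0x68612) (nat_lit 0) (p (nat_lit 0x50592) (nat_lit 0) (p (nat_lit 0x38512) (nat_lit 0) (p (nat_lit 0x50392) (nat_lit 0) (p (nat_lit 0x38312) (nat_lit 0) (p (nat_lit 0x20292) (nat_lit 0) (p (nat_lit 0x38112) (nat_lit 0) (p (nat_lit 0x20092) (nat_lit 0) (p (nat_lit 0x8012) (nat_lit 0) pn))))))))))))))))))))))) :=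
  Cl.node (nat_lit 0xc1) (nat_lit 2) (by decide +kernel) (ClAll.succ (ClAll.succ ClAll.zero s41) s42)

def n30 : Cl (O (nat_lit 6)) (R (nat_lit 143521))
    (p (nat_lit 0xc1) (nat_lit 1) (p (nat_lit 0x119) (nat_lit 1) (p (nat_lit 0xd1) (nat_lit 0) (p (nat_lit 0x81) (nat_lit 0) (p (nat_lit 0x41) (nat_lit 1) (p (nat_lit 0x10a898a09081a) (nat_lit 0) (p (nat_lit 0x8a090988879a) (nat_lit 0) (p (nat_lit 0x107888908071a) (nat_lit 0) (p (nat_lit 0x87080887869a) (nat_lit 0) (p (nat_lit 0x8000080000000088807060a) (nat_lit 0) (p (nat_lit 0x8000080000000060786858a) (nat_lit 0) (p (nat_lit 0x10687060502) (nat_lit 0) (p (nat_lit 0x8606858482) (nat_lit 0) (p (nat_lit 0x160004) (nat_lit 0) (p (nat_lit 0x68612) (nat_lit 0) (p (nat_lit 0x50592) (nat_lit 0) (p (nat_lit 0x38512) (nat_lit 0) (p (nat_lit 0x50392) (nat_lit 0) (p (nat_lit 0x38312) (nat_lit 0) (p (nat_lit 0x20292) (nat_lit 0) (p (nat_lit 0x38112)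 (nat_lit 0) (p (nat_lit 0x20092) (nat_lit 0) (p (nat_lit 0x8012) (nat_lit 0) pn))))))))))))))))))))))) :=
  Cl.node (nat_lit 0x101) (nat_lit 2) (by decide +kernel) (ClAll.succ (ClAll.succ ClAll.zero s44) s45)

def n31 : Cl (O (nat_lit 6)) (R (nat_lit 143521))
    (p (nat_lit 0x101) (nat_lit 0) (p (nat_lit 0x111) (nat_lit 0) (p (nat_lit 0xd1) (nat_lit 1) (p (nat_lit 0x81) (nat_lit 0) (p (nat_lit 0x41) (nat_lit 1) (p (nat_lit 0x10a898a09081a) (nat_lit 0) (p (nat_lit 0x8a090988879a) (nat_lit 0) (p (nat_lit 0x107888908071a) (nat_lit 0) (p (nat_lit 0x87080887869a) (nat_lit 0) (p (nat_lit 0x8000080000000088807060a) (nat_lit 0) (p (nat_lit 0x8000080000000060786858a) (nat_lit 0) (p (nat_lit 0x10687060502) (nat_lit 0) (p (nat_lit 0x8606858482) (nat_lit 0) (p (nat_lit 0x160004) (nat_lit 0) (p (nat_lit 0x68612) (nat_lit 0) (p (nat_lit 0x50592) (nat_lit 0) (p (nat_lit 0x38512) (nat_lit 0) (p (nat_lit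 0x50392) (nat_lit 0) (p (nat_lit 0x38312) (nat_lit 0) (p (nat_lit 0x20292) (nat_lit 0) (p (nat_lit 0x38112) (nat_lit 0) (p (nat_lit 0x20092) (nat_lit 0) (p (nat_lit 0x8012) (nat_lit 0) pn))))))))))))))))))))))) :=
  Cl.node (nat_lit 0x109) (nat_lit 2) (by decide +kernel) (ClAll.succ (ClAll.succ ClAll.zero s46) n17)

def n32 : Cl (O (nat_lit 6)) (R (nat_lit 143521))
    (p (nat_lit 0x101) (nat_lit 0) (p (nat_lit 0x119) (nat_lit 0) (p (nat_lit 0xc1) (nat_lit 0) (p (nat_lit 0x81) (nat_lit 1) (p (nat_lit 0x41) (nat_lit 1) (p (nat_lit 0x10a898a09081a) (nat_lit 0) (p (nat_lit 0x8a090988879a) (nat_lit 0) (p (nat_lit 0x107888908071a) (nat_lit 0) (p (nat_lit 0x87080887869a) (nat_lit 0) (p (nat_lit 0x8000080000000088807060a) (nat_lit 0) (p (nat_lit 0x8000080000000060786858a) (nat_lit 0) (p (nat_lit 0x10687060502) (nat_lit 0) (p (nat_lit 0x8606858482) (nat_lit 0) (p (nat_lit 0x160004) (nat_lit 0) (p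 (nat_lit 0x68612) (nat_lit 0) (p (nat_lit 0x50592) (nat_lit 0) (p (nat_lit 0x38512) (nat_lit 0) (p (nat_lit 0x50392) (nat_lit 0) (p (nat_lit 0x38312) (nat_lit 0) (p (nat_lit 0x20292) (nat_lit 0) (p (nat_lit 0x38112) (nat_lit 0) (p (nat_lit 0x20092) (nat_lit 0) (p (nat_lit 0x8012) (nat_lit 0) pn))))))))))))))))))))))) :=
  Cl.node (nat_lit 0x109) (nat_lit 2) (by decide +kernel) (ClAll.succ (ClAll.succ ClAll.zero s52) n18)

def n33 : Cl (O (nat_lit 6)) (R (nat_lit 143521))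
    (p (nat_lit 0x101) (nat_lit 1) (p (nat_lit 0x119) (nat_lit 0) (p (nat_lit 0xc1) (nat_lit 0) (p (nat_lit 0x81) (nat_lit 1) (p (nat_lit 0x41) (nat_lit 1) (p (nat_lit 0x10a898a09081a) (nat_lit 0) (p (nat_lit 0x8a090988879a) (nat_lit 0) (p (nat_lit 0x107888908071a) (nat_lit 0) (p (nat_lit 0x87080887869a) (nat_lit 0) (p (nat_lit 0x8000080000000088807060a) (nat_lit 0) (p (nat_lit 0x8000080000000060786858a) (nat_lit 0) (p (nat_lit 0x10687060502) (nat_lit 0) (p (nat_lit 0x8606858482) (nat_lit 0) (p (nat_lit 0x160004) (nat_lit 0) (p (nat_lit 0x68612) (nat_lit 0) (p (nat_lit 0x50592) (nat_lit 0) (p (nat_lit 0x38512) (nat_lit 0) (p (nat_lit 0x50392) (nat_lit 0) (p (nat_lit 0x38312) (nat_lit 0) (p (nat_lit 0x20292) (nat_lit 0) (p (nat_lit 0x38112) (nat_lit 0) (p (nat_lit 0x20092) (nat_lit 0) (p (nat_lit 0x8012) (nat_lit 0) pn))))))))))))))))))))))) :=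
  Cl.node (nat_lit 0xc9) (nat_lit 2) (by decide +kernel) (ClAll.succ (ClAll.succ ClAll.zero s55) s56)

def n34 : Cl (O (nat_lit 6)) (R (nat_lit 143521))
    (p (nat_lit 0x109) (nat_lit 0) (p (nat_lit 0x101) (nat_lit 0) (p (nat_lit 0xc1) (nat_lit 1) (p (nat_lit 0x81) (nat_lit 1) (p (nat_lit 0x41) (nat_lit 1) (p (nat_lit 0x10a898a09081a) (nat_lit 0) (p (nat_lit 0x8a090988879a) (nat_lit 0) (p (nat_lit 0x107888908071a) (nat_lit 0) (p (nat_lit 0x87080887869a) (nat_lit 0) (p (nat_lit 0x8000080000000088807060a) (nat_lit 0) (p (nat_lit 0x8000080000000060786858a) (nat_lit 0) (p (nat_lit 0x10687060502) (nat_lit 0) (p (nat_lit 0x8606858482) (nat_lit 0) (p (nat_lit 0x160004) (nat_lit 0) (p (nat_lit 0x68612) (nat_lit 0) (p (nat_lit 0x50592) (nat_lit 0) (p (nat_lit 0x38512) (nat_lit 0) (p (nat_lit 0x50392) (nat_lit 0) (p (nat_lit 0x38312) (nat_lit 0) (p (nat_lit 0x20292) (nat_lit 0) (p (nat_lit 0x38112)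 (nat_lit 0) (p (nat_lit 0x20092) (nat_lit 0) (p (nat_lit 0x8012) (nat_lit 0) pn))))))))))))))))))))))) :=
  Cl.node (nat_lit 0x111) (nat_lit 2) (by decide +kernel) (ClAll.succ (ClAll.succ ClAll.zero s59) s60)

def n35 : Cl (O (nat_lit 6)) (R (nat_lit 143521))
    (p (nat_lit 0x119) (nat_lit 0) (p (nat_lit 0xd1) (nat_lit 0) (p (nat_lit 0x89) (nat_lit 0) (p (nat_lit 0x41) (nat_lit 0) (p (nat_lit 0x10a898a09081a) (nat_lit 0) (p (nat_lit 0x8a090988879a) (nat_lit 0) (p (nat_lit 0x107888908071a) (nat_lit 0) (p (nat_lit 0x87080887869a) (nat_lit 0) (p (nat_lit 0x8000080000000088807060a) (nat_lit 0) (p (nat_lit 0x8000080000000060786858a) (nat_lit 0) (p (nat_lit 0x10687060502) (nat_lit 0) (p (nat_lit 0x8606858482) (nat_lit 0) (p (nat_lit 0x160004) (nat_lit 0) (p (nat_lit 0x68612) (nat_lit 0) (p (nat_lit 0x50592) (nat_lit 0) (p (nat_lit 0x38512) (nat_lit 0) (p (nat_lit 0x50392) (nat_lit 0) (p (nat_lit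 0x38312) (nat_lit 0) (p (nat_lit 0x20292) (nat_lit 0) (p (nat_lit 0x38112) (nat_lit 0) (p (nat_lit 0x20092) (nat_lit 0) (p (nat_lit 0x8012) (nat_lit 0) pn)))))))))))))))))))))) :=
  Cl.node (nat_lit 0x101) (nat_lit 2) (by decide +kernel) (ClAll.succ (ClAll.succ ClAll.zero n19) n20)

def n36 : Cl (O (nat_lit 6)) (R (nat_lit 143521))
    (p (nat_lit 0x119) (nat_lit 1) (p (nat_lit 0xd1) (nat_lit 0) (p (nat_lit 0x89) (nat_lit 0) (p (nat_lit 0x41) (nat_lit 0) (p (nat_lit 0x10a898a09081a) (nat_lit 0) (p (nat_lit 0x8a090988879a) (nat_lit 0) (p (nat_lit 0x107888908071a) (nat_lit 0) (p (nat_lit 0x87080887869a) (nat_lit 0) (p (nat_lit 0x8000080000000088807060a) (nat_lit 0) (p (nat_lit 0x8000080000000060786858a) (nat_lit 0) (p (nat_lit 0x10687060502) (nat_lit 0) (p (nat_lit 0x8606858482) (nat_lit 0) (p (nat_lit 0x160004) (nat_lit 0) (p (nat_lit 0x68612) (nat_lit 0) (p (nat_lit 0x50592) (nat_lit 0)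 (p (nat_lit 0x38512) (nat_lit 0) (p (nat_lit 0x50392) (nat_lit 0) (p (nat_lit 0x38312) (nat_lit 0) (p (nat_lit 0x20292) (nat_lit 0) (p (nat_lit 0x38112) (nat_lit 0) (p (nat_lit 0x20092) (nat_lit 0) (p (nat_lit 0x8012) (nat_lit 0) pn)))))))))))))))))))))) :=
  Cl.node (nat_lit 0xc1) (nat_lit 2) (by decide +kernel) (ClAll.succ (ClAll.succ ClAll.zero s9) n21)

def n37 : Cl (O (nat_lit 6)) (R (nat_lit 143521))
    (p (nat_lit 0x111) (nat_lit 0) (p (nat_lit 0xd1) (nat_lit 1) (p (nat_lit 0x89) (nat_lit 0) (p (nat_lit 0x41) (nat_lit 0) (p (nat_lit 0x10a898a09081a) (nat_lit 0) (p (nat_lit 0x8a090988879a) (nat_lit 0) (p (nat_lit 0x107888908071a) (nat_lit 0) (p (nat_lit 0x87080887869a) (nat_lit 0) (p (nat_lit 0x8000080000000088807060a) (nat_lit 0) (p (nat_lit 0x8000080000000060786858a) (nat_lit 0) (p (nat_lit 0x10687060502) (nat_lit 0) (p (nat_lit 0x8606858482) (nat_lit 0) (p (nat_lit 0x160004) (nat_lit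 0) (p (nat_lit 0x68612) (nat_lit 0) (p (nat_lit 0x50592) (nat_lit 0) (p (nat_lit 0x38512) (nat_lit 0) (p (nat_lit 0x50392) (nat_lit 0) (p (nat_lit 0x38312) (nat_lit 0) (p (nat_lit 0x20292) (nat_lit 0) (p (nat_lit 0x38112) (nat_lit 0) (p (nat_lit 0x20092) (nat_lit 0) (p (nat_lit 0x8012) (nat_lit 0) pn)))))))))))))))))))))) :=
  Cl.node (nat_lit 0x101) (nat_lit 2) (by decide +kernel) (ClAll.succ (ClAll.succ ClAll.zero n22) n23)

def n38 : Cl (O (nat_lit 6)) (R (nat_lit 143521))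
    (p (nat_lit 0x119) (nat_lit 0) (p (nat_lit 0xc9) (nat_lit 0) (p (nat_lit 0x89) (nat_lit 1) (p (nat_lit 0x41) (nat_lit 0) (p (nat_lit 0x10a898a09081a) (nat_lit 0) (p (nat_lit 0x8a090988879a) (nat_lit 0) (p (nat_lit 0x107888908071a) (nat_lit 0) (p (nat_lit 0x87080887869a) (nat_lit 0) (p (nat_lit 0x8000080000000088807060a) (nat_lit 0) (p (nat_lit 0x8000080000000060786858a) (nat_lit 0) (p (nat_lit 0x10687060502) (nat_lit 0) (p (nat_lit 0x8606858482) (nat_lit 0) (p (nat_lit 0x160004) (nat_lit 0) (p (nat_lit 0x68612) (nat_lit 0) (p (nat_lit 0x50592) (nat_lit 0) (p (nat_lit 0x38512) (nat_lit 0) (p (nat_lit 0x50392) (nat_lit 0) (p (nat_lit 0x38312) (nat_lit 0) (p (nat_lit 0x20292) (nat_lit 0) (p (nat_lit 0x38112) (nat_lit 0) (p (nat_lit 0x20092) (nat_lit 0) (p (nat_lit 0x8012) (nat_lit 0) pn)))))))))))))))))))))) :=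
  Cl.node (nat_lit 0x101) (nat_lit 2) (by decide +kernel) (ClAll.succ (ClAll.succ ClAll.zero n24) n25)

def n39 : Cl (O (nat_lit 6)) (R (nat_lit 143521))
    (p (nat_lit 0x119) (nat_lit 1) (p (nat_lit 0xc9) (nat_lit 0) (p (nat_lit 0x89) (nat_lit 1) (p (nat_lit 0x41) (nat_lit 0) (p (nat_lit 0x10a898a09081a) (nat_lit 0) (p (nat_lit 0x8a090988879a) (nat_lit 0) (p (nat_lit 0x107888908071a) (nat_lit 0) (p (nat_lit 0x87080887869a) (nat_lit 0) (p (nat_lit 0x8000080000000088807060a) (nat_lit 0) (p (nat_lit 0x8000080000000060786858a) (nat_lit 0) (p (nat_lit 0x10687060502) (nat_lit 0) (p (nat_lit 0x8606858482) (nat_lit 0) (p (nat_lit 0x160004) (nat_lit 0) (p (nat_lit 0x68612) (nat_lit 0) (p (nat_lit 0x50592) (nat_lit 0) (p (nat_lit 0x38512) (nat_lit 0) (p (nat_lit 0x50392) (nat_lit 0) (p (nat_lit 0x38312) (nat_lit 0) (p (nat_lit 0x20292) (nat_lit 0) (p (nat_lit 0x38112) (nat_lit 0) (p (nat_lit 0x20092)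 (nat_lit 0) (p (nat_lit 0x8012) (nat_lit 0) pn)))))))))))))))))))))) :=
  Cl.node (nat_lit 0xc1) (nat_lit 2) (by decide +kernel) (ClAll.succ (ClAll.succ ClAll.zero s30) n26)

def n40 : Cl (O (nat_lit 6)) (R (nat_lit 143521))
    (p (nat_lit 0x109) (nat_lit 0) (p (nat_lit 0xc9) (nat_lit 1) (p (nat_lit 0x89) (nat_lit 1) (p (nat_lit 0x41) (nat_lit 0) (p (nat_lit 0x10a898a09081a) (nat_lit 0) (p (nat_lit 0x8a090988879a) (nat_lit 0) (p (nat_lit 0x107888908071a) (nat_lit 0) (p (nat_lit 0x87080887869a) (nat_lit 0) (p (nat_lit 0x8000080000000088807060a) (nat_lit 0) (p (nat_lit 0x8000080000000060786858a) (nat_lit 0) (p (nat_lit 0x10687060502) (nat_lit 0) (p (nat_lit 0x8606858482) (nat_lit 0) (p (nat_lit 0x160004) (nat_lit 0) (p (nat_lit 0x68612) (nat_lit 0) (p (nat_lit 0x50592) (nat_lit 0) (p (nat_lit 0x38512) (nat_lit 0) (p (nat_lit 0x50392) (nat_lit 0) (p (nat_lit 0x38312) (nat_lit 0) (p (nat_lit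 0x20292) (nat_lit 0) (p (nat_lit 0x38112) (nat_lit 0) (p (nat_lit 0x20092) (nat_lit 0) (p (nat_lit 0x8012) (nat_lit 0) pn)))))))))))))))))))))) :=
  Cl.node (nat_lit 0x101) (nat_lit 2) (by decide +kernel) (ClAll.succ (ClAll.succ ClAll.zero n27) s36)

def n41 : Cl (O (nat_lit 6)) (R (nat_lit 143521))
    (p (nat_lit 0x119) (nat_lit 0) (p (nat_lit 0xd1) (nat_lit 0) (p (nat_lit 0x81) (nat_lit 0) (p (nat_lit 0x41) (nat_lit 1) (p (nat_lit 0x10a898a09081a) (nat_lit 0) (p (nat_lit 0x8a090988879a) (nat_lit 0) (p (nat_lit 0x107888908071a) (nat_lit 0) (p (nat_lit 0x87080887869a) (nat_lit 0) (p (nat_lit 0x8000080000000088807060a) (nat_lit 0) (p (nat_lit 0x8000080000000060786858a) (nat_lit 0) (p (nat_lit 0x10687060502) (nat_lit 0) (p (nat_lit 0x8606858482) (nat_lit 0) (p (nat_lit 0x160004) (nat_lit 0) (p (nat_lit 0x68612) (nat_lit 0) (p (nat_lit 0x50592) (nat_lit 0) (p (nat_lit 0x38512) (nat_lit 0)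 (p (nat_lit 0x50392) (nat_lit 0) (p (nat_lit 0x38312) (nat_lit 0) (p (nat_lit 0x20292) (nat_lit 0) (p (nat_lit 0x38112) (nat_lit 0) (p (nat_lit 0x20092) (nat_lit 0) (p (nat_lit 0x8012) (nat_lit 0) pn)))))))))))))))))))))) :=
  Cl.node (nat_lit 0x101) (nat_lit 2) (by decide +kernel) (ClAll.succ (ClAll.succ ClAll.zero n28) n29)

def n42 : Cl (O (nat_lit 6)) (R (nat_lit 143521))
    (p (nat_lit 0x119) (nat_lit 1) (p (nat_lit 0xd1) (nat_lit 0) (p (nat_lit 0x81) (nat_lit 0) (p (nat_lit 0x41) (nat_lit 1) (p (nat_lit 0x10a898a09081a) (nat_lit 0) (p (nat_lit 0x8a090988879a) (nat_lit 0) (p (nat_lit 0x107888908071a) (nat_lit 0) (p (nat_lit 0x87080887869a) (nat_lit 0) (p (nat_lit 0x8000080000000088807060a) (nat_lit 0) (p (nat_lit 0x8000080000000060786858a) (nat_lit 0) (p (nat_lit 0x10687060502) (nat_lit 0) (p (nat_lit 0x8606858482) (nat_lit 0) (p (nat_lit 0x160004) (nat_lit 0) (p (nat_lit 0x68612)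 (nat_lit 0) (p (nat_lit 0x50592) (nat_lit 0) (p (nat_lit 0x38512) (nat_lit 0) (p (nat_lit 0x50392) (nat_lit 0) (p (nat_lit 0x38312) (nat_lit 0) (p (nat_lit 0x20292) (nat_lit 0) (p (nat_lit 0x38112) (nat_lit 0) (p (nat_lit 0x20092) (nat_lit 0) (p (nat_lit 0x8012) (nat_lit 0) pn)))))))))))))))))))))) :=
  Cl.node (nat_lit 0xc1) (nat_lit 2) (by decide +kernel) (ClAll.succ (ClAll.succ ClAll.zero s43) n30)

def n43 : Cl (O (nat_lit 6)) (R (nat_lit 143521))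
    (p (nat_lit 0x111) (nat_lit 0) (p (nat_lit 0xd1) (nat_lit 1) (p (nat_lit 0x81) (nat_lit 0) (p (nat_lit 0x41) (nat_lit 1) (p (nat_lit 0x10a898a09081a) (nat_lit 0) (p (nat_lit 0x8a090988879a) (nat_lit 0) (p (nat_lit 0x107888908071a) (nat_lit 0) (p (nat_lit 0x87080887869a) (nat_lit 0) (p (nat_lit 0x8000080000000088807060a) (nat_lit 0) (p (nat_lit 0x8000080000000060786858a) (nat_lit 0) (p (nat_lit 0x10687060502) (nat_lit 0) (p (nat_lit 0x8606858482) (nat_lit 0) (p (nat_lit 0x160004) (nat_lit 0) (p (nat_lit 0x68612) (nat_lit 0) (p (nat_lit 0x50592) (nat_lit 0) (p (nat_lit 0x38512) (nat_lit 0) (p (nat_lit 0x50392) (nat_lit 0) (p (nat_lit 0x38312) (nat_lit 0) (p (nat_lit 0x20292) (nat_lit 0) (p (nat_lit 0x38112) (nat_lit 0) (p (nat_lit 0x20092) (nat_lit 0) (p (nat_lit 0x8012) (nat_lit 0) pn)))))))))))))))))))))) :=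
  Cl.node (nat_lit 0x101) (nat_lit 2) (by decide +kernel) (ClAll.succ (ClAll.succ ClAll.zero n31) s50)

def n44 : Cl (O (nat_lit 6)) (R (nat_lit 143521))
    (p (nat_lit 0x119) (nat_lit 0) (p (nat_lit 0xc1) (nat_lit 0) (p (nat_lit 0x81) (nat_lit 1) (p (nat_lit 0x41) (nat_lit 1) (p (nat_lit 0x10a898a09081a) (nat_lit 0) (p (nat_lit 0x8a090988879a) (nat_lit 0) (p (nat_lit 0x107888908071a) (nat_lit 0) (p (nat_lit 0x87080887869a) (nat_lit 0) (p (nat_lit 0x8000080000000088807060a) (nat_lit 0) (p (nat_lit 0x8000080000000060786858a) (nat_lit 0) (p (nat_lit 0x10687060502) (nat_lit 0) (p (nat_lit 0x8606858482) (nat_lit 0) (p (nat_lit 0x160004) (nat_lit 0) (p (nat_lit 0x68612) (nat_lit 0) (p (nat_lit 0x50592) (nat_lit 0) (p (nat_lit 0x38512) (nat_lit 0) (p (nat_lit 0x50392) (nat_lit 0) (p (nat_lit 0x38312) (nat_lit 0) (p (nat_lit 0x20292) (nat_lit 0) (p (nat_lit 0x38112) (nat_lit 0) (p (nat_lit 0x20092)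 (nat_lit 0) (p (nat_lit 0x8012) (nat_lit 0) pn)))))))))))))))))))))) :=
  Cl.node (nat_lit 0x101) (nat_lit 2) (by decide +kernel) (ClAll.succ (ClAll.succ ClAll.zero n32) n33)

def n45 : Cl (O (nat_lit 6)) (R (nat_lit 143521))
    (p (nat_lit 0x119) (nat_lit 1) (p (nat_lit 0xc1) (nat_lit 0) (p (nat_lit 0x81) (nat_lit 1) (p (nat_lit 0x41) (nat_lit 1) (p (nat_lit 0x10a898a09081a) (nat_lit 0) (p (nat_lit 0x8a090988879a) (nat_lit 0) (p (nat_lit 0x107888908071a) (nat_lit 0) (p (nat_lit 0x87080887869a) (nat_lit 0) (p (nat_lit 0x8000080000000088807060a) (nat_lit 0) (p (nat_lit 0x8000080000000060786858a) (nat_lit 0) (p (nat_lit 0x10687060502) (nat_lit 0) (p (nat_lit 0x8606858482) (nat_lit 0) (p (nat_lit 0x160004) (nat_lit 0) (p (nat_lit 0x68612) (nat_lit 0) (p (nat_lit 0x50592) (nat_lit 0) (p (nat_lit 0x38512) (nat_lit 0) (p (nat_lit 0x50392) (nat_lit 0) (p (nat_lit 0x38312) (nat_lit 0) (p (nat_lit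 0x20292) (nat_lit 0) (p (nat_lit 0x38112) (nat_lit 0) (p (nat_lit 0x20092) (nat_lit 0) (p (nat_lit 0x8012) (nat_lit 0) pn)))))))))))))))))))))) :=
  Cl.node (nat_lit 0xc9) (nat_lit 2) (by decide +kernel) (ClAll.succ (ClAll.succ ClAll.zero s57) s58)

def n46 : Cl (O (nat_lit 6)) (R (nat_lit 143521))
    (p (nat_lit 0x101) (nat_lit 0) (p (nat_lit 0xc1) (nat_lit 1) (p (nat_lit 0x81) (nat_lit 1) (p (nat_lit 0x41) (nat_lit 1) (p (nat_lit 0x10a898a09081a) (nat_lit 0) (p (nat_lit 0x8a090988879a) (nat_lit 0) (p (nat_lit 0x107888908071a) (nat_lit 0) (p (nat_lit 0x87080887869a) (nat_lit 0) (p (nat_lit 0x8000080000000088807060a) (nat_lit 0) (p (nat_lit 0x8000080000000060786858a) (nat_lit 0) (p (nat_lit 0x10687060502) (nat_lit 0) (p (nat_lit 0x8606858482) (nat_lit 0) (p (nat_lit 0x160004) (nat_lit 0) (p (nat_lit 0x68612) (nat_lit 0) (p (nat_lit 0x50592) (nat_lit 0) (p (nat_lit 0x38512) (nat_lit 0) (p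 (nat_lit 0x50392) (nat_lit 0) (p (nat_lit 0x38312) (nat_lit 0) (p (nat_lit 0x20292) (nat_lit 0) (p (nat_lit 0x38112) (nat_lit 0) (p (nat_lit 0x20092) (nat_lit 0) (p (nat_lit 0x8012) (nat_lit 0) pn)))))))))))))))))))))) :=
  Cl.node (nat_lit 0x109) (nat_lit 2) (by decide +kernel) (ClAll.succ (ClAll.succ ClAll.zero n34) s61)

def n47 : Cl (O (nat_lit 6)) (R (nat_lit 143521))
    (p (nat_lit 0xd1) (nat_lit 0) (p (nat_lit 0x89) (nat_lit 0) (p (nat_lit 0x41) (nat_lit 0) (p (nat_lit 0x10a898a09081a) (nat_lit 0) (p (nat_lit 0x8a090988879a) (nat_lit 0) (p (nat_lit 0x107888908071a) (nat_lit 0) (p (nat_lit 0x87080887869a) (nat_lit 0) (p (nat_lit 0x8000080000000088807060a) (nat_lit 0) (p (nat_lit 0x8000080000000060786858a) (nat_lit 0) (p (nat_lit 0x10687060502) (nat_lit 0) (p (nat_lit 0x8606858482) (nat_lit 0) (p (nat_lit 0x160004) (nat_lit 0) (p (nat_lit 0x68612) (nat_lit 0) (p (nat_lit 0x50592) (nat_lit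 0) (p (nat_lit 0x38512) (nat_lit 0) (p (nat_lit 0x50392) (nat_lit 0) (p (nat_lit 0x38312) (nat_lit 0) (p (nat_lit 0x20292) (nat_lit 0) (p (nat_lit 0x38112) (nat_lit 0) (p (nat_lit 0x20092) (nat_lit 0) (p (nat_lit 0x8012) (nat_lit 0) pn))))))))))))))))))))) :=
  Cl.node (nat_lit 0x119) (nat_lit 2) (by decide +kernel) (ClAll.succ (ClAll.succ ClAll.zero n35) n36)

def n48 : Cl (O (nat_lit 6)) (R (nat_lit 143521))
    (p (nat_lit 0xd1) (nat_lit 1) (p (nat_lit 0x89) (nat_lit 0) (p (nat_lit 0x41) (nat_lit 0) (p (nat_lit 0x10a898a09081a) (nat_lit 0) (p (nat_lit 0x8a090988879a) (nat_lit 0) (p (nat_lit 0x107888908071a) (nat_lit 0) (p (nat_lit 0x87080887869a) (nat_lit 0) (p (nat_lit 0x8000080000000088807060a) (nat_lit 0) (p (nat_lit 0x8000080000000060786858a) (nat_lit 0) (p (nat_lit 0x10687060502) (nat_lit 0) (p (nat_lit 0x8606858482) (nat_lit 0) (p (nat_lit 0x160004) (nat_lit 0) (p (nat_lit 0x68612)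 (nat_lit 0) (p (nat_lit 0x50592) (nat_lit 0) (p (nat_lit 0x38512) (nat_lit 0) (p (nat_lit 0x50392) (nat_lit 0) (p (nat_lit 0x38312) (nat_lit 0) (p (nat_lit 0x20292) (nat_lit 0) (p (nat_lit 0x38112) (nat_lit 0) (p (nat_lit 0x20092) (nat_lit 0) (p (nat_lit 0x8012) (nat_lit 0) pn))))))))))))))))))))) :=
  Cl.node (nat_lit 0x111) (nat_lit 2) (by decide +kernel) (ClAll.succ (ClAll.succ ClAll.zero n37) s19)

def n49 : Cl (O (nat_lit 6)) (R (nat_lit 143521))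
    (p (nat_lit 0xc9) (nat_lit 0) (p (nat_lit 0x89) (nat_lit 1) (p (nat_lit 0x41) (nat_lit 0) (p (nat_lit 0x10a898a09081a) (nat_lit 0) (p (nat_lit 0x8a090988879a) (nat_lit 0) (p (nat_lit 0x107888908071a) (nat_lit 0) (p (nat_lit 0x87080887869a) (nat_lit 0) (p (nat_lit 0x8000080000000088807060a) (nat_lit 0) (p (nat_lit 0x8000080000000060786858a) (nat_lit 0) (p (nat_lit 0x10687060502) (nat_lit 0) (p (nat_lit 0x8606858482) (nat_lit 0) (p (nat_lit 0x160004) (nat_lit 0) (p (nat_lit 0x68612) (nat_lit 0) (p (nat_lit 0x50592) (nat_lit 0) (p (nat_lit 0x38512) (nat_lit 0) (p (nat_lit 0x50392) (nat_lit 0) (p (nat_lit 0x38312) (nat_lit 0) (p (nat_lit 0x20292) (nat_lit 0) (p (nat_lit 0x38112) (nat_lit 0) (p (nat_lit 0x20092) (nat_lit 0) (p (nat_lit 0x8012) (nat_lit 0) pn))))))))))))))))))))) :=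
  Cl.node (nat_lit 0x119) (nat_lit 2) (by decide +kernel) (ClAll.succ (ClAll.succ ClAll.zero n38) n39)

def n50 : Cl (O (nat_lit 6)) (R (nat_lit 143521))
    (p (nat_lit 0xc9) (nat_lit 1) (p (nat_lit 0x89) (nat_lit 1) (p (nat_lit 0x41) (nat_lit 0) (p (nat_lit 0x10a898a09081a) (nat_lit 0) (p (nat_lit 0x8a090988879a) (nat_lit 0) (p (nat_lit 0x107888908071a) (nat_lit 0) (p (nat_lit 0x87080887869a) (nat_lit 0) (p (nat_lit 0x8000080000000088807060a) (nat_lit 0) (p (nat_lit 0x8000080000000060786858a) (nat_lit 0) (p (nat_lit 0x10687060502) (nat_lit 0) (p (nat_lit 0x8606858482) (nat_lit 0) (p (nat_lit 0x160004) (nat_lit 0) (p (nat_lit 0x68612) (nat_lit 0) (p (nat_lit 0x50592) (nat_lit 0) (p (nat_lit 0x38512) (nat_lit 0) (p (nat_lit 0x50392) (nat_lit 0) (p (nat_lit 0x38312) (nat_lit 0) (p (nat_lit 0x20292) (nat_lit 0) (p (nat_lit 0x38112) (nat_lit 0) (p (nat_lit 0x20092) (nat_lit 0) (p (nat_lit 0x8012)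 (nat_lit 0) pn))))))))))))))))))))) :=
  Cl.node (nat_lit 0x109) (nat_lit 2) (by decide +kernel) (ClAll.succ (ClAll.succ ClAll.zero n40) s37)

def n51 : Cl (O (nat_lit 6)) (R (nat_lit 143521))
    (p (nat_lit 0xd1) (nat_lit 0) (p (nat_lit 0x81) (nat_lit 0) (p (nat_lit 0x41) (nat_lit 1) (p (nat_lit 0x10a898a09081a) (nat_lit 0) (p (nat_lit 0x8a090988879a) (nat_lit 0) (p (nat_lit 0x107888908071a) (nat_lit 0) (p (nat_lit 0x87080887869a) (nat_lit 0) (p (nat_lit 0x8000080000000088807060a) (nat_lit 0) (p (nat_lit 0x8000080000000060786858a) (nat_lit 0) (p (nat_lit 0x10687060502) (nat_lit 0) (p (nat_lit 0x8606858482) (nat_lit 0) (p (nat_lit 0x160004) (nat_lit 0) (p (nat_lit 0x68612) (nat_lit 0) (p (nat_lit 0x50592) (nat_lit 0) (p (nat_lit 0x38512) (nat_lit 0) (p (nat_lit 0x50392) (nat_lit 0) (p (nat_lit 0x38312) (nat_lit 0) (p (nat_lit 0x20292) (nat_lit 0) (p (nat_lit 0x38112) (nat_lit 0) (p (nat_lit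 0x20092) (nat_lit 0) (p (nat_lit 0x8012) (nat_lit 0) pn))))))))))))))))))))) :=
  Cl.node (nat_lit 0x119) (nat_lit 2) (by decide +kernel) (ClAll.succ (ClAll.succ ClAll.zero n41) n42)

def n52 : Cl (O (nat_lit 6)) (R (nat_lit 143521))
    (p (nat_lit 0xd1) (nat_lit 1) (p (nat_lit 0x81) (nat_lit 0) (p (nat_lit 0x41) (nat_lit 1) (p (nat_lit 0x10a898a09081a) (nat_lit 0) (p (nat_lit 0x8a090988879a) (nat_lit 0) (p (nat_lit 0x107888908071a) (nat_lit 0) (p (nat_lit 0x87080887869a) (nat_lit 0) (p (nat_lit 0x8000080000000088807060a) (nat_lit 0) (p (nat_lit 0x8000080000000060786858a) (nat_lit 0) (p (nat_lit 0x10687060502) (nat_lit 0) (p (nat_lit 0x8606858482) (nat_lit 0) (p (nat_lit 0x160004) (nat_lit 0) (p (nat_lit 0x68612) (nat_lit 0) (p (nat_lit 0x50592) (nat_lit 0) (p (nat_lit 0x38512) (nat_lit 0) (p (nat_lit 0x50392) (nat_lit 0) (p (nat_lit 0x38312) (nat_lit 0) (p (nat_lit 0x20292) (nat_lit 0)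 (p (nat_lit 0x38112) (nat_lit 0) (p (nat_lit 0x20092) (nat_lit 0) (p (nat_lit 0x8012) (nat_lit 0) pn))))))))))))))))))))) :=
  Cl.node (nat_lit 0x111) (nat_lit 2) (by decide +kernel) (ClAll.succ (ClAll.succ ClAll.zero n43) s51)

def n53 : Cl (O (nat_lit 6)) (R (nat_lit 143521))
    (p (nat_lit 0xc1) (nat_lit 0) (p (nat_lit 0x81) (nat_lit 1) (p (nat_lit 0x41) (nat_lit 1) (p (nat_lit 0x10a898a09081a) (nat_lit 0) (p (nat_lit 0x8a090988879a) (nat_lit 0) (p (nat_lit 0x107888908071a) (nat_lit 0) (p (nat_lit 0x87080887869a) (nat_lit 0) (p (nat_lit 0x8000080000000088807060a) (nat_lit 0) (p (nat_lit 0x8000080000000060786858a) (nat_lit 0) (p (nat_lit 0x10687060502) (nat_lit 0) (p (nat_lit 0x8606858482) (nat_lit 0) (p (nat_lit 0x160004) (nat_lit 0) (p (nat_lit 0x68612) (nat_lit 0) (p (nat_lit 0x50592) (nat_lit 0) (p (nat_lit 0x38512) (nat_lit 0) (p (nat_lit 0x50392) (nat_lit 0) (p (nat_lit 0x38312)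 (nat_lit 0) (p (nat_lit 0x20292) (nat_lit 0) (p (nat_lit 0x38112) (nat_lit 0) (p (nat_lit 0x20092) (nat_lit 0) (p (nat_lit 0x8012) (nat_lit 0) pn))))))))))))))))))))) :=
  Cl.node (nat_lit 0x119) (nat_lit 2) (by decide +kernel) (ClAll.succ (ClAll.succ ClAll.zero n44) n45)

def n54 : Cl (O (nat_lit 6)) (R (nat_lit 143521))
    (p (nat_lit 0xc1) (nat_lit 1) (p (nat_lit 0x81) (nat_lit 1) (p (nat_lit 0x41) (nat_lit 1) (p (nat_lit 0x10a898a09081a) (nat_lit 0) (p (nat_lit 0x8a090988879a) (nat_lit 0) (p (nat_lit 0x107888908071a) (nat_lit 0) (p (nat_lit 0x87080887869a) (nat_lit 0) (p (nat_lit 0x8000080000000088807060a) (nat_lit 0) (p (nat_lit 0x8000080000000060786858a) (nat_lit 0) (p (nat_lit 0x10687060502) (nat_lit 0) (p (nat_lit 0x8606858482) (nat_lit 0) (p (nat_lit 0x160004) (nat_lit 0) (p (nat_lit 0x68612) (nat_lit 0) (p (nat_lit 0x50592) (nat_lit 0) (p (nat_lit 0x38512) (nat_lit 0) (p (nat_lit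 0x50392) (nat_lit 0) (p (nat_lit 0x38312) (nat_lit 0) (p (nat_lit 0x20292) (nat_lit 0) (p (nat_lit 0x38112) (nat_lit 0) (p (nat_lit 0x20092) (nat_lit 0) (p (nat_lit 0x8012) (nat_lit 0) pn))))))))))))))))))))) :=
  Cl.node (nat_lit 0x101) (nat_lit 2) (by decide +kernel) (ClAll.succ (ClAll.succ ClAll.zero n46) s62)

def n55 : Cl (O (nat_lit 6)) (R (nat_lit 143521))
    (p (nat_lit 0x89) (nat_lit 0) (p (nat_lit 0x41) (nat_lit 0) (p (nat_lit 0x10a898a09081a) (nat_lit 0) (p (nat_lit 0x8a090988879a) (nat_lit 0) (p (nat_lit 0x107888908071a) (nat_lit 0) (p (nat_lit 0x87080887869a) (nat_lit 0) (p (nat_lit 0x8000080000000088807060a) (nat_lit 0) (p (nat_lit 0x8000080000000060786858a) (nat_lit 0) (p (nat_lit 0x10687060502) (nat_lit 0) (p (nat_lit 0x8606858482) (nat_lit 0) (p (nat_lit 0x160004) (nat_lit 0) (p (nat_lit 0x68612) (nat_lit 0) (p (nat_lit 0x50592) (nat_lit 0) (p (nat_lit 0x38512) (nat_lit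 0) (p (nat_lit 0x50392) (nat_lit 0) (p (nat_lit 0x38312) (nat_lit 0) (p (nat_lit 0x20292) (nat_lit 0) (p (nat_lit 0x38112) (nat_lit 0) (p (nat_lit 0x20092) (nat_lit 0) (p (nat_lit 0x8012) (nat_lit 0) pn)))))))))))))))))))) :=
  Cl.node (nat_lit 0xd1) (nat_lit 2) (by decide +kernel) (ClAll.succ (ClAll.succ ClAll.zero n47) n48)

def n56 : Cl (O (nat_lit 6)) (R (nat_lit 143521))
    (p (nat_lit 0x89) (nat_lit 1) (p (nat_lit 0x41) (nat_lit 0) (p (nat_lit 0x10a898a09081a) (nat_lit 0) (p (nat_lit 0x8a090988879a) (nat_lit 0) (p (nat_lit 0x107888908071a) (nat_lit 0) (p (nat_lit 0x87080887869a) (nat_lit 0) (p (nat_lit 0x8000080000000088807060a) (nat_lit 0) (p (nat_lit 0x8000080000000060786858a) (nat_lit 0) (p (nat_lit 0x10687060502) (nat_lit 0) (p (nat_lit 0x8606858482) (nat_lit 0) (p (nat_lit 0x160004) (nat_lit 0) (p (nat_lit 0x68612) (nat_lit 0) (p (nat_lit 0x50592) (nat_lit 0) (p (nat_lit 0x38512)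 (nat_lit 0) (p (nat_lit 0x50392) (nat_lit 0) (p (nat_lit 0x38312) (nat_lit 0) (p (nat_lit 0x20292) (nat_lit 0) (p (nat_lit 0x38112) (nat_lit 0) (p (nat_lit 0x20092) (nat_lit 0) (p (nat_lit 0x8012) (nat_lit 0) pn)))))))))))))))))))) :=
  Cl.node (nat_lit 0xc9) (nat_lit 2) (by decide +kernel) (ClAll.succ (ClAll.succ ClAll.zero n49) n50)

def n57 : Cl (O (nat_lit 6)) (R (nat_lit 143521))
    (p (nat_lit 0x81) (nat_lit 0) (p (nat_lit 0x41) (nat_lit 1) (p (nat_lit 0x10a898a09081a) (nat_lit 0) (p (nat_lit 0x8a090988879a) (nat_lit 0) (p (nat_lit 0x107888908071a) (nat_lit 0) (p (nat_lit 0x87080887869a) (nat_lit 0) (p (nat_lit 0x8000080000000088807060a) (nat_lit 0) (p (nat_lit 0x8000080000000060786858a) (nat_lit 0) (p (nat_lit 0x10687060502) (nat_lit 0) (p (nat_lit 0x8606858482) (nat_lit 0) (p (nat_lit 0x160004) (nat_lit 0) (p (nat_lit 0x68612) (nat_lit 0) (p (nat_lit 0x50592) (nat_lit 0) (p (nat_lit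 0x38512) (nat_lit 0) (p (nat_lit 0x50392) (nat_lit 0) (p (nat_lit 0x38312) (nat_lit 0) (p (nat_lit 0x20292) (nat_lit 0) (p (nat_lit 0x38112) (nat_lit 0) (p (nat_lit 0x20092) (nat_lit 0) (p (nat_lit 0x8012) (nat_lit 0) pn)))))))))))))))))))) :=
  Cl.node (nat_lit 0xd1) (nat_lit 2) (by decide +kernel) (ClAll.succ (ClAll.succ ClAll.zero n51) n52)

def n58 : Cl (O (nat_lit 6)) (R (nat_lit 143521))
    (p (nat_lit 0x81) (nat_lit 1) (p (nat_lit 0x41) (nat_lit 1) (p (nat_lit 0x10a898a09081a) (nat_lit 0) (p (nat_lit 0x8a090988879a) (nat_lit 0) (p (nat_lit 0x107888908071a) (nat_lit 0) (p (nat_lit 0x87080887869a) (nat_lit 0) (p (nat_lit 0x8000080000000088807060a) (nat_lit 0) (p (nat_lit 0x8000080000000060786858a) (nat_lit 0) (p (nat_lit 0x10687060502) (nat_lit 0) (p (nat_lit 0x8606858482) (nat_lit 0) (p (nat_lit 0x160004) (nat_lit 0) (p (nat_lit 0x68612) (nat_lit 0) (p (nat_lit 0x50592) (nat_lit 0)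 (p (nat_lit 0x38512) (nat_lit 0) (p (nat_lit 0x50392) (nat_lit 0) (p (nat_lit 0x38312) (nat_lit 0) (p (nat_lit 0x20292) (nat_lit 0) (p (nat_lit 0x38112) (nat_lit 0) (p (nat_lit 0x20092) (nat_lit 0) (p (nat_lit 0x8012) (nat_lit 0) pn)))))))))))))))))))) :=
  Cl.node (nat_lit 0xc1) (nat_lit 2) (by decide +kernel) (ClAll.succ (ClAll.succ ClAll.zero n53) n54)

def n59 : Cl (O (nat_lit 6)) (R (nat_lit 143521))
    (p (nat_lit 0x41) (nat_lit 0) (p (nat_lit 0x10a898a09081a) (nat_lit 0) (p (nat_lit 0x8a090988879a) (nat_lit 0) (p (nat_lit 0x107888908071a) (nat_lit 0) (p (nat_lit 0x87080887869a) (nat_lit 0) (p (nat_lit 0x8000080000000088807060a) (nat_lit 0) (p (nat_lit 0x8000080000000060786858a) (nat_lit 0) (p (nat_lit 0x10687060502) (nat_lit 0) (p (nat_lit 0x8606858482) (nat_lit 0) (p (nat_lit 0x160004) (nat_lit 0) (p (nat_lit 0x68612) (nat_lit 0) (p (nat_lit 0x50592) (nat_lit 0) (p (nat_lit 0x38512)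 (nat_lit 0) (p (nat_lit 0x50392) (nat_lit 0) (p (nat_lit 0x38312) (nat_lit 0) (p (nat_lit 0x20292) (nat_lit 0) (p (nat_lit 0x38112) (nat_lit 0) (p (nat_lit 0x20092) (nat_lit 0) (p (nat_lit 0x8012) (nat_lit 0) pn))))))))))))))))))) :=
  Cl.node (nat_lit 0x89) (nat_lit 2) (by decide +kernel) (ClAll.succ (ClAll.succ ClAll.zero n55) n56)

def n60 : Cl (O (nat_lit 6)) (R (nat_lit 143521))
    (p (nat_lit 0x41) (nat_lit 1) (p (nat_lit 0x10a898a09081a) (nat_lit 0) (p (nat_lit 0x8a090988879a) (nat_lit 0) (p (nat_lit 0x107888908071a) (nat_lit 0) (p (nat_lit 0x87080887869a) (nat_lit 0) (p (nat_lit 0x8000080000000088807060a) (nat_lit 0) (p (nat_lit 0x8000080000000060786858a) (nat_lit 0) (p (nat_lit 0x10687060502) (nat_lit 0) (p (nat_lit 0x8606858482) (nat_lit 0) (p (nat_lit 0x160004) (nat_lit 0) (p (nat_lit 0x68612) (nat_lit 0) (p (nat_lit 0x50592) (nat_lit 0) (p (nat_lit 0x38512) (nat_lit 0) (p (nat_lit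 0x50392) (nat_lit 0) (p (nat_lit 0x38312) (nat_lit 0) (p (nat_lit 0x20292) (nat_lit 0) (p (nat_lit 0x38112) (nat_lit 0) (p (nat_lit 0x20092) (nat_lit 0) (p (nat_lit 0x8012) (nat_lit 0) pn))))))))))))))))))) :=
  Cl.node (nat_lit 0x81) (nat_lit 2) (by decide +kernel) (ClAll.succ (ClAll.succ ClAll.zero n57) n58)

def n61 : Cl (O (nat_lit 6)) (R (nat_lit 143521))
    (p (nat_lit 0x10a898a09081a) (nat_lit 0) (p (nat_lit 0x8a090988879a) (nat_lit 0) (p (nat_lit 0x107888908071a) (nat_lit 0) (p (nat_lit 0x87080887869a) (nat_lit 0) (p (nat_lit 0x8000080000000088807060a) (nat_lit 0) (p (nat_lit 0x8000080000000060786858a) (nat_lit 0) (p (nat_lit 0x10687060502) (nat_lit 0) (p (nat_lit 0x8606858482) (nat_lit 0) (p (nat_lit 0x160004) (nat_lit 0) (p (nat_lit 0x68612) (nat_lit 0) (p (nat_lit 0x50592) (nat_lit 0) (p (nat_lit 0x38512) (nat_lit 0) (p (nat_lit 0x50392) (nat_lit 0) (p (nat_lit 0x38312) (nat_lit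 0) (p (nat_lit 0x20292) (nat_lit 0) (p (nat_lit 0x38112) (nat_lit 0) (p (nat_lit 0x20092) (nat_lit 0) (p (nat_lit 0x8012) (nat_lit 0) pn)))))))))))))))))) :=
  Cl.node (nat_lit 0x41) (nat_lit 2) (by decide +kernel) (ClAll.succ (ClAll.succ ClAll.zero n59) n60)

def n62 : Cl (O (nat_lit 6)) (R (nat_lit 143521))
    (p (nat_lit 0x8a090988879a) (nat_lit 0) (p (nat_lit 0x107888908071a) (nat_lit 0) (p (nat_lit 0x87080887869a) (nat_lit 0) (p (nat_lit 0x8000080000000088807060a) (nat_lit 0) (p (nat_lit 0x8000080000000060786858a) (nat_lit 0) (p (nat_lit 0x10687060502) (nat_lit 0) (p (nat_lit 0x8606858482) (nat_lit 0) (p (nat_lit 0x160004) (nat_lit 0) (p (nat_lit 0x68612) (nat_lit 0) (p (nat_lit 0x50592) (nat_lit 0) (p (nat_lit 0x38512) (nat_lit 0) (p (nat_lit 0x50392) (nat_lit 0) (p (nat_lit 0x38312) (nat_lit 0) (p (nat_lit 0x20292) (nat_lit 0) (p (nat_lit 0x38112) (nat_lit 0) (p (nat_lit 0x20092)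 (nat_lit 0) (p (nat_lit 0x8012) (nat_lit 0) pn))))))))))))))))) :=
  Cl.node (nat_lit 0x10a898a09081a) (nat_lit 1) (by decide +kernel) (ClAll.succ ClAll.zero n61)

def n63 : Cl (O (nat_lit 6)) (R (nat_lit 143521))
    (p (nat_lit 0x107888908071a) (nat_lit 0) (p (nat_lit 0x87080887869a) (nat_lit 0) (p (nat_lit 0x8000080000000088807060a) (nat_lit 0) (p (nat_lit 0x8000080000000060786858a) (nat_lit 0) (p (nat_lit 0x10687060502) (nat_lit 0) (p (nat_lit 0x8606858482) (nat_lit 0) (p (nat_lit 0x160004) (nat_lit 0) (p (nat_lit 0x68612) (nat_lit 0) (p (nat_lit 0x50592) (nat_lit 0) (p (nat_lit 0x38512) (nat_lit 0) (p (nat_lit 0x50392) (nat_lit 0) (p (nat_lit 0x38312) (nat_lit 0) (p (nat_lit 0x20292) (nat_lit 0) (p (nat_lit 0x38112) (nat_lit 0) (p (nat_lit 0x20092) (nat_lit 0) (p (nat_lit 0x8012) (nat_lit 0) pn)))))))))))))))) :=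
  Cl.node (nat_lit 0x8a090988879a) (nat_lit 1) (by decide +kernel) (ClAll.succ ClAll.zero n62)

def n64 : Cl (O (nat_lit 6)) (R (nat_lit 143521))
    (p (nat_lit 0x87080887869a) (nat_lit 0) (p (nat_lit 0x8000080000000088807060a) (nat_lit 0) (p (nat_lit 0x8000080000000060786858a) (nat_lit 0) (p (nat_lit 0x10687060502) (nat_lit 0) (p (nat_lit 0x8606858482) (nat_lit 0) (p (nat_lit 0x160004) (nat_lit 0) (p (nat_lit 0x68612) (nat_lit 0) (p (nat_lit 0x50592) (nat_lit 0) (p (nat_lit 0x38512) (nat_lit 0) (p (nat_lit 0x50392) (nat_lit 0) (p (nat_lit 0x38312) (nat_lit 0) (p (nat_lit 0x20292) (nat_lit 0) (p (nat_lit 0x38112) (nat_lit 0) (p (nat_lit 0x20092) (nat_lit 0) (p (nat_lit 0x8012) (nat_lit 0) pn))))))))))))))) :=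
  Cl.node (nat_lit 0x107888908071a) (nat_lit 1) (by decide +kernel) (ClAll.succ ClAll.zero n63)

def n65 : Cl (O (nat_lit 6)) (R (nat_lit 143521))
    (p (nat_lit 0x8000080000000088807060a) (nat_lit 0) (p (nat_lit 0x8000080000000060786858a) (nat_lit 0) (p (nat_lit 0x10687060502) (nat_lit 0) (p (nat_lit 0x8606858482) (nat_lit 0) (p (nat_lit 0x160004) (nat_lit 0) (p (nat_lit 0x68612) (nat_lit 0) (p (nat_lit 0x50592) (nat_lit 0) (p (nat_lit 0x38512) (nat_lit 0) (p (nat_lit 0x50392) (nat_lit 0) (p (nat_lit 0x38312) (nat_lit 0) (p (nat_lit 0x20292) (nat_lit 0) (p (nat_lit 0x38112) (nat_lit 0) (p (nat_lit 0x20092) (nat_lit 0) (p (nat_lit 0x8012) (nat_lit 0) pn)))))))))))))) :=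
  Cl.node (nat_lit 0x87080887869a) (nat_lit 1) (by decide +kernel) (ClAll.succ ClAll.zero n64)

def n66 : Cl (O (nat_lit 6)) (R (nat_lit 143521))
    (p (nat_lit 0x8000080000000060786858a) (nat_lit 0) (p (nat_lit 0x10687060502) (nat_lit 0) (p (nat_lit 0x8606858482) (nat_lit 0) (p (nat_lit 0x160004) (nat_lit 0) (p (nat_lit 0x68612) (nat_lit 0) (p (nat_lit 0x50592) (nat_lit 0) (p (nat_lit 0x38512) (nat_lit 0) (p (nat_lit 0x50392) (nat_lit 0) (p (nat_lit 0x38312) (nat_lit 0) (p (nat_lit 0x20292) (nat_lit 0) (p (nat_lit 0x38112) (nat_lit 0) (p (nat_lit 0x20092) (nat_lit 0) (p (nat_lit 0x8012) (nat_lit 0) pn))))))))))))) :=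
  Cl.node (nat_lit 0x8000080000000088807060a) (nat_lit 1) (by decide +kernel) (ClAll.succ ClAll.zero n65)

def n67 : Cl (O (nat_lit 6)) (R (nat_lit 143521))
    (p (nat_lit 0x10687060502) (nat_lit 0) (p (nat_lit 0x8606858482) (nat_lit 0) (p (nat_lit 0x160004) (nat_lit 0) (p (nat_lit 0x68612) (nat_lit 0) (p (nat_lit 0x50592) (nat_lit 0) (p (nat_lit 0x38512) (nat_lit 0) (p (nat_lit 0x50392) (nat_lit 0) (p (nat_lit 0x38312) (nat_lit 0) (p (nat_lit 0x20292) (nat_lit 0) (p (nat_lit 0x38112) (nat_lit 0) (p (nat_lit 0x20092) (nat_lit 0) (p (nat_lit 0x8012) (nat_lit 0) pn)))))))))))) :=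
  Cl.node (nat_lit 0x8000080000000060786858a) (nat_lit 1) (by decide +kernel) (ClAll.succ ClAll.zero n66)

def n68 : Cl (O (nat_lit 6)) (R (nat_lit 143521))
    (p (nat_lit 0x8606858482) (nat_lit 0) (p (nat_lit 0x160004) (nat_lit 0) (p (nat_lit 0x68612) (nat_lit 0) (p (nat_lit 0x50592) (nat_lit 0) (p (nat_lit 0x38512) (nat_lit 0) (p (nat_lit 0x50392) (nat_lit 0) (p (nat_lit 0x38312) (nat_lit 0) (p (nat_lit 0x20292) (nat_lit 0) (p (nat_lit 0x38112) (nat_lit 0) (p (nat_lit 0x20092) (nat_lit 0) (p (nat_lit 0x8012) (nat_lit 0) pn))))))))))) :=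
  Cl.node (nat_lit 0x10687060502) (nat_lit 1) (by decide +kernel) (ClAll.succ ClAll.zero n67)

def n69 : Cl (O (nat_lit 6)) (R (nat_lit 143521))
    (p (nat_lit 0x160004) (nat_lit 0) (p (nat_lit 0x68612) (nat_lit 0) (p (nat_lit 0x50592) (nat_lit 0) (p (nat_lit 0x38512) (nat_lit 0) (p (nat_lit 0x50392) (nat_lit 0) (p (nat_lit 0x38312) (nat_lit 0) (p (nat_lit 0x20292) (nat_lit 0) (p (nat_lit 0x38112) (nat_lit 0) (p (nat_lit 0x20092) (nat_lit 0) (p (nat_lit 0x8012) (nat_lit 0) pn)))))))))) :=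
  Cl.node (nat_lit 0x8606858482) (nat_lit 1) (by decide +kernel) (ClAll.succ ClAll.zero n68)

def n70 : Cl (O (nat_lit 6)) (R (nat_lit 143521))
    (p (nat_lit 0x68612) (nat_lit 0) (p (nat_lit 0x50592) (nat_lit 0) (p (nat_lit 0x38512) (nat_lit 0) (p (nat_lit 0x50392) (nat_lit 0) (p (nat_lit 0x38312) (nat_lit 0) (p (nat_lit 0x20292) (nat_lit 0) (p (nat_lit 0x38112) (nat_lit 0) (p (nat_lit 0x20092) (nat_lit 0) (p (nat_lit 0x8012) (nat_lit 0) pn))))))))) :=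
  Cl.node (nat_lit 0x160004) (nat_lit 2) (by decide +kernel) (ClAll.succ (ClAll.succ ClAll.zero n69) s63)

def n71 : Cl (O (nat_lit 6)) (R (nat_lit 143521))
    (p (nat_lit 0x50592) (nat_lit 0) (p (nat_lit 0x38512) (nat_lit 0) (p (nat_lit 0x50392) (nat_lit 0) (p (nat_lit 0x38312) (nat_lit 0) (p (nat_lit 0x20292) (nat_lit 0) (p (nat_lit 0x38112) (nat_lit 0) (p (nat_lit 0x20092) (nat_lit 0) (p (nat_lit 0x8012) (nat_lit 0) pn)))))))) :=
  Cl.node (nat_lit 0x68612) (nat_lit 1) (by decide +kernel) (ClAll.succ ClAll.zero n70)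

def n72 : Cl (O (nat_lit 6)) (R (nat_lit 143521))
    (p (nat_lit 0x38512) (nat_lit 0) (p (nat_lit 0x50392) (nat_lit 0) (p (nat_lit 0x38312) (nat_lit 0) (p (nat_lit 0x20292) (nat_lit 0) (p (nat_lit 0x38112) (nat_lit 0) (p (nat_lit 0x20092) (nat_lit 0) (p (nat_lit 0x8012) (nat_lit 0) pn))))))) :=
  Cl.node (nat_lit 0x50592) (nat_lit 1) (by decide +kernel) (ClAll.succ ClAll.zero n71)

def n73 : Cl (O (nat_lit 6)) (R (nat_lit 143521))
    (p (nat_lit 0x50392) (nat_lit 0) (p (nat_lit 0x38312) (nat_lit 0) (p (nat_lit 0x20292) (nat_lit 0) (p (nat_lit 0x38112) (nat_lit 0) (p (nat_lit 0x20092) (nat_lit 0) (p (nat_lit 0x8012) (nat_lit 0) pn)))))) :=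
  Cl.node (nat_lit 0x38512) (nat_lit 1) (by decide +kernel) (ClAll.succ ClAll.zero n72)

def n74 : Cl (O (nat_lit 6)) (R (nat_lit 143521))
    (p (nat_lit 0x38312) (nat_lit 0) (p (nat_lit 0x20292) (nat_lit 0) (p (nat_lit 0x38112) (nat_lit 0) (p (nat_lit 0x20092) (nat_lit 0) (p (nat_lit 0x8012) (nat_lit 0) pn))))) :=
  Cl.node (nat_lit 0x50392) (nat_lit 1) (by decide +kernel) (ClAll.succ ClAll.zero n73)

def n75 : Cl (O (nat_lit 6)) (R (nat_lit 143521))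
    (p (nat_lit 0x20292) (nat_lit 0) (p (nat_lit 0x38112) (nat_lit 0) (p (nat_lit 0x20092) (nat_lit 0) (p (nat_lit 0x8012) (nat_lit 0) pn)))) :=
  Cl.node (nat_lit 0x38312) (nat_lit 1) (by decide +kernel) (ClAll.succ ClAll.zero n74)

def n76 : Cl (O (nat_lit 6)) (R (nat_lit 143521))
    (p (nat_lit 0x38112) (nat_lit 0) (p (nat_lit 0x20092) (nat_lit 0) (p (nat_lit 0x8012) (nat_lit 0) pn))) :=
  Cl.node (nat_lit 0x20292) (nat_lit 1) (by decide +kernel) (ClAll.succ ClAll.zero n75)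

def n77 : Cl (O (nat_lit 6)) (R (nat_lit 143521))
    (p (nat_lit 0x20092) (nat_lit 0) (p (nat_lit 0x8012) (nat_lit 0) pn)) :=
  Cl.node (nat_lit 0x38112) (nat_lit 1) (by decide +kernel) (ClAll.succ ClAll.zero n76)

def n78 : Cl (O (nat_lit 6)) (R (nat_lit 143521))
    (p (nat_lit 0x8012) (nat_lit 0) pn) :=
  Cl.node (nat_lit 0x20092) (nat_lit 1) (by decide +kernel) (ClAll.succ ClAll.zero n77)

def n79 : Cl (O (nat_lit 6)) (R (nat_lit 143521))
    pn :=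
  Cl.node (nat_lit 0x8012) (nat_lit 1) (by decide +kernel) (ClAll.succ ClAll.zero n78)

theorem top : Cl (O (nat_lit 6)) (R (nat_lit 143521)) pn := n79

end Pool.Agent.Gen.F5.X1D2C3Dm6
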